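import Pool.Agent.Work.MP_9fe7bd_lc.Domino

namespace Pool.Agent.Work.MP_9fe7bd_lc

theorem step_congr {I : Inst} {C C' : List (ℕ × ℕ × ℕ)} (h : ∀ c, c ∈ C ↔ c ∈ C') (c : ℕ × ℕ × ℕ) :
    c ∈ step I C ↔ c ∈ step I C' := by
  simp only [mem_step, h]

theorem CL_congr {I : Inst} {i j : ℕ} (h : ∀ c, c ∈ CL I i ↔ c ∈ CL I j) :
    ∀ k c, c ∈ CL I (i + k) ↔ c ∈ CL I (j + k) := by
  intro k
  induction k with
  | zero => exact h
  | succ k ih =>
    intro c
    rw [← add_assoc, ← add_assoc, CL_succ, CL_succ]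
    exact step_congr ih c

/-- all colours -/
def univ3 (m : ℕ) : Finset (ℕ × ℕ × ℕ) := Finset.range m ×ˢ (Finset.range m ×ˢ Finset.range m)

theorem CL_sub (I : Inst) (n : ℕ) : ∀ c ∈ CL I n, c ∈ univ3 I.1 := by
  induction n with
  | zero =>
    intro c hc
    simp only [CL, Function.iterate_zero, id, base, List.mem_map, List.mem_range] at hc
    obtain ⟨t, ht, rfl⟩ := hc
    simp [univ3, ht]
  | succ n ih =>
    intro c hc
    rw [CL_succ, mem_step] at hc
    obtain ⟨e0, h0, e1, h1, e2, h2, _, rfl⟩ := hc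
    have h0 := ih e0 h0
    have h1 := ih e1 h1
    have h2 := ih e2 h2
    simp only [univ3, Finset.mem_product, Finset.mem_range] at *
    exact ⟨h0.1, h1.2.1, h2.2.2⟩

theorem bounded {I : Inst} {q : ℕ × ℕ × ℕ → Prop}
    (hq : ∀ n, (∃ c ∈ CL I (n + 1), q c) → ∃ c ∈ CL I n, q c) :
    (∀ n, ∃ c ∈ CL I n, q c) ↔ ∃ c ∈ CL I (2 ^ (I.1 ^ 3)), q c := by
  classical
  constructor
  · intro h; exact h _
  · intro h n
    by_contra hn
    have hex : ∃ n, ¬ ∃ c ∈ CL I n, q c := ⟨n, hn⟩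
    set n0 := Nat.find hex with hn0
    have h0 : ¬ ∃ c ∈ CL I n0, q c := Nat.find_spec hex
    have h1 : ∀ m < n0, ∃ c ∈ CL I m, q c := fun m hm => not_not.1 (Nat.find_min hex hm)
    have h2 : 2 ^ (I.1 ^ 3) < n0 := by
      by_contra hle
      push Not at hle
      have : ∀ k, (∃ c ∈ CL I (n0 + k), q c) → ∃ c ∈ CL I n0, q c := by
        intro k
        induction k with
        | zero => exact fun h => h
        | succ k ih => exact fun h => ih (hq _ h)
      apply h0
      apply this (2 ^ (I.1 ^ 3) - n0)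
      rw [Nat.add_sub_cancel' hle]
      exact h
    -- pigeonhole
    obtain ⟨i, hi, j, hj, hij, he⟩ : ∃ i ∈ Finset.range (2 ^ (I.1 ^ 3) + 1),
        ∃ j ∈ Finset.range (2 ^ (I.1 ^ 3) + 1), i ≠ j ∧ (CL I i).toFinset = (CL I j).toFinset := by
      apply Finset.exists_ne_map_eq_of_card_lt_of_maps_to (t := (univ3 I.1).powerset)
      · rw [Finset.card_powerset, univ3, Finset.card_product, Finset.card_product,
          Finset.card_range, Finset.card_range]
        have : I.1 * (I.1 * I.1) = I.1 ^ 3 := by ring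
        rw [this]
        omega
      · intro i _
        simp only [Finset.coe_powerset, Set.mem_preimage, Set.mem_powerset_iff]
        intro c hc
        exact CL_sub I i c (by simpa using hc)
    wlog hlt : i < j generalizing i j
    · exact this j hj i hi hij.symm he.symm (by omega)
    have hc : ∀ c, c ∈ CL I i ↔ c ∈ CL I j := fun c => by
      rw [← List.mem_toFinset, he, List.mem_toFinset]
    rw [Finset.mem_range] at hi hj
    obtain ⟨k, hk⟩ := Nat.exists_eq_add_of_le (show j ≤ n0 by omega)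
    obtain ⟨c, hc1, hc2⟩ := h1 (i + k) (by omega)
    apply h0
    rw [hk]
    exact ⟨c, (CL_congr hc k c).1 hc1, hc2⟩

theorem down_true (I : Inst) (n : ℕ) (h : ∃ c ∈ CL I (n + 1), True) : ∃ c ∈ CL I n, True := by
  obtain ⟨c, hc, _⟩ := h
  rw [CL_succ, mem_step] at hc
  obtain ⟨e0, h0, _⟩ := hc
  exact ⟨e0, h0, trivial⟩

theorem down_loop (I : Inst) (i : Fin 3) (n : ℕ)
    (h : ∃ c ∈ CL I (n + 1), ((i : ℕ), gt c i, gt c i) ∈ I.2) :
    ∃ c ∈ CL I n, ((i : ℕ), gt c i, gt c i) ∈ I.2 := by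
  obtain ⟨c, hc, hc'⟩ := h
  rw [CL_succ, mem_step] at hc
  obtain ⟨e0, h0, e1, h1, e2, h2, _, rfl⟩ := hc
  fin_cases i
  · exact ⟨e0, h0, hc'⟩
  · exact ⟨e1, h1, hc'⟩
  · exact ⟨e2, h2, hc'⟩

section prim
open Primrec

theorem mem_primrec : PrimrecRel fun (L : List (ℕ × ℕ × ℕ)) (b : ℕ × ℕ × ℕ) => b ∈ L := by
  have h : PrimrecRel fun (a b : ℕ × ℕ × ℕ) => a = b := Primrec.eq
  exact h.exists_mem_list.of_eq fun L b => by simp

/-- membership of a computed triple -/
theorem mem_primrec' {α : Type} [Primcodable α] {f : α → Inst} {a b : α → ℕ} (s : ℕ)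
    (hf : Primrec f) (ha : Primrec a) (hb : Primrec b) :
    PrimrecPred fun x => (s, a x, b x) ∈ (f x).2 :=
  mem_primrec.comp (Primrec.snd.comp hf) (Primrec.pair (Primrec.const s) (Primrec.pair ha hb))

theorem cond_primrec {α : Type} [Primcodable α] {f : α → Inst} {e0 e1 e2 : α → ℕ × ℕ × ℕ}
    (hf : Primrec f) (h0 : Primrec e0) (h1 : Primrec e1) (h2 : Primrec e2) :
    PrimrecPred fun x => cond (f x) (e0 x) (e1 x) (e2 x) := by
  have a0 : Primrec fun x => (e0 x).2.1 := Primrec.fst.comp (Primrec.snd.comp h0)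
  have b0 : Primrec fun x => (e0 x).2.2 := Primrec.snd.comp (Primrec.snd.comp h0)
  have c1 : Primrec fun x => (e1 x).1 := Primrec.fst.comp h1
  have b1 : Primrec fun x => (e1 x).2.2 := Primrec.snd.comp (Primrec.snd.comp h1)
  have c2 : Primrec fun x => (e2 x).1 := Primrec.fst.comp h2
  have a2 : Primrec fun x => (e2 x).2.1 := Primrec.fst.comp (Primrec.snd.comp h2)
  unfold cond
  exact ((mem_primrec' 0 hf c1 c2).and (mem_primrec' 0 hf c2 c1)).and
    (((mem_primrec' 1 hf a0 a2).and (mem_primrec' 1 hf a2 a0)).and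
      ((mem_primrec' 2 hf b0 b1).and (mem_primrec' 2 hf b1 b0)))

theorem step_primrec : Primrec₂ step := by
  unfold step
  refine Primrec.list_flatMap Primrec.snd ?_
  refine Primrec.list_flatMap (Primrec.snd.comp Primrec.fst) ?_
  refine Primrec.listFilterMap (Primrec.snd.comp (Primrec.fst.comp Primrec.fst)) ?_
  have hI : Primrec fun x : (((Inst × List (ℕ × ℕ × ℕ)) × (ℕ × ℕ × ℕ)) × (ℕ × ℕ × ℕ)) ×
      (ℕ × ℕ × ℕ) => x.1.1.1.1 :=
    Primrec.fst.comp (Primrec.fst.comp (Primrec.fst.comp Primrec.fst))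
  have h0 : Primrec fun x : (((Inst × List (ℕ × ℕ × ℕ)) × (ℕ × ℕ × ℕ)) × (ℕ × ℕ × ℕ)) ×
      (ℕ × ℕ × ℕ) => x.1.1.2 := Primrec.snd.comp (Primrec.fst.comp Primrec.fst)
  have h1 : Primrec fun x : (((Inst × List (ℕ × ℕ × ℕ)) × (ℕ × ℕ × ℕ)) × (ℕ × ℕ × ℕ)) ×
      (ℕ × ℕ × ℕ) => x.1.2 := Primrec.snd.comp Primrec.fst
  have h2 : Primrec fun x : (((Inst × List (ℕ × ℕ × ℕ)) × (ℕ × ℕ × ℕ)) × (ℕ × ℕ × ℕ)) ×
      (ℕ × ℕ × ℕ) => x.2 := Primrec.snd
  refine Primrec.ite (cond_primrec hI h0 h1 h2) ?_ (Primrec.const none)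
  exact Primrec.option_some.comp (Primrec.pair (Primrec.fst.comp h0)
    (Primrec.pair (Primrec.fst.comp (Primrec.snd.comp h1))
      (Primrec.snd.comp (Primrec.snd.comp h2))))

theorem base_primrec : Primrec base := by
  unfold base
  exact Primrec.list_map (Primrec.list_range.comp Primrec.fst)
    (Primrec.pair Primrec.snd (Primrec.pair Primrec.snd Primrec.snd))

theorem pow_primrec : Primrec₂ ((· ^ ·) : ℕ → ℕ → ℕ) := Primrec₂.unpaired'.1 Nat.Primrec.pow

theorem CL_primrec : Primrec fun I : Inst => CL I (2 ^ (I.1 ^ 3)) := by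
  unfold CL
  refine Primrec.nat_iterate ?_ base_primrec step_primrec
  exact pow_primrec.comp (Primrec.const 2) (pow_primrec.comp Primrec.fst (Primrec.const 3))

theorem pred_true : PrimrecPred fun I : Inst => ∃ c ∈ CL I (2 ^ (I.1 ^ 3)), True := by
  have h : PrimrecPred fun I : Inst => ¬ (CL I (2 ^ (I.1 ^ 3))).length = 0 :=
    (Primrec.eq.comp (Primrec.list_length.comp CL_primrec) (Primrec.const 0)).not
  refine h.of_eq fun I => ?_
  rw [List.length_eq_zero_iff]
  constructor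
  · intro h
    obtain ⟨c, hc⟩ := List.exists_mem_of_ne_nil _ h
    exact ⟨c, hc, trivial⟩
  · rintro ⟨c, hc, _⟩ h
    rw [h] at hc
    exact absurd hc (by simp)

theorem gt_primrec (i : Fin 3) : Primrec fun c : ℕ × ℕ × ℕ => gt c i := by
  fin_cases i
  · exact Primrec.fst
  · exact Primrec.fst.comp Primrec.snd
  · exact Primrec.snd.comp Primrec.snd

theorem pred_loop (i : Fin 3) : PrimrecPred fun I : Inst =>
    ∃ c ∈ CL I (2 ^ (I.1 ^ 3)), ((i : ℕ), gt c i, gt c i) ∈ I.2 := by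
  have h1 : PrimrecRel fun (c : ℕ × ℕ × ℕ) (I : Inst) => ((i : ℕ), gt c i, gt c i) ∈ I.2 :=
    mem_primrec' (i : ℕ) Primrec.snd ((gt_primrec i).comp Primrec.fst)
      ((gt_primrec i).comp Primrec.fst)
  exact h1.exists_mem_list.comp CL_primrec Primrec.id

end prim

theorem PrimrecPred.computablePred {α : Type} [Primcodable α] {p : α → Prop}
    (h : PrimrecPred p) : ComputablePred p := by
  obtain ⟨h1, h2⟩ := h
  exact ⟨h1, h2.to_comp⟩

theorem dominoDecidable (ξ : Om) : DominoDecidable (Edge hanoi ξ) := by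
  unfold DominoDecidable
  by_cases hξ : NonSing ξ
  · refine (PrimrecPred.computablePred pred_true).of_eq fun I => ?_
    rw [tileable_iff, tileCl_iff_nonSing hξ, bounded (down_true I)]
  · obtain ⟨i, hi⟩ := exists_const_of_not_nonSing hξ
    refine (PrimrecPred.computablePred (pred_loop i)).of_eq fun I => ?_
    rw [tileable_iff, tileCl_iff_sing hi, bounded (down_loop I i)]

end Pool.Agent.Work.MP_9fe7bd_lc
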