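import Mathlib

namespace Pool.Agent.Work.MP_9fe7bd_lc

/-! Self-similar groups, contraction, Schreier graphs, domino problem, monadic second-order logic. -/

/-- `G`, a group of permutations of the set of finite words over `X` (so `G` acts faithfully),
is self-similar: it fixes the empty word and for all `g ∈ G`, `x ∈ X` there are `y ∈ X`, `h ∈ G`
with `g (x w) = y h(w)` for all words `w`. -/
def IsSelfSimilar {X : Type} (G : Subgroup (Equiv.Perm (List X))) : Prop :=
  (∀ g ∈ G, g [] = []) ∧
    ∀ g ∈ G, ∀ x : X, ∃ y : X, ∃ h ∈ G, ∀ w : List X, g (x :: w) = y :: h w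

/-- `G` is contracting: some finite `N ⊆ G` contains, for each `g ∈ G`, the sections `g|_v`
for all sufficiently long words `v`. -/
def IsContracting {X : Type} (G : Subgroup (Equiv.Perm (List X))) : Prop :=
  ∃ N : Set (Equiv.Perm (List X)), N.Finite ∧ N ⊆ (G : Set (Equiv.Perm (List X))) ∧
    ∀ g ∈ G, ∃ n : ℕ, ∀ v : List X, n ≤ v.length →
      ∃ h ∈ N, ∀ w : List X, g (v ++ w) = g v ++ h w

/-- The initial segment of length `n` of an infinite word. -/
def pre {X : Type} (ξ : ℕ → X) (n : ℕ) : List X := (List.range n).map ξ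

/-- The permutation `g` of the set of finite words maps the infinite word `ξ` to `η`. -/
def Maps {X : Type} (g : Equiv.Perm (List X)) (ξ η : ℕ → X) : Prop :=
  ∀ n, g (pre ξ n) = pre η n

/-- The vertex set of the Schreier graph of `ξ`: the orbit of `ξ` under `G`. -/
def Orb {X : Type} (G : Subgroup (Equiv.Perm (List X))) (ξ : ℕ → X) : Type :=
  {η : ℕ → X // ∃ g ∈ G, Maps g ξ η}

/-- The labelled edges of the Schreier graph of `ξ`, for the group generated by `S`. -/
def Edge {X : Type} {k : ℕ} (S : Fin k → Equiv.Perm (List X)) (ξ : ℕ → X) (s : Fin k)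
    (v w : Orb (Subgroup.closure (Set.range S)) ξ) : Prop :=
  Maps (S s) v.1 w.1

/-- An instance of the domino problem is a pair `I = (m, L)`; its tile set is `{0, ..., m - 1}` and
`(i, j) ∈ R_s` if and only if `(s, i, j)` is in the list `L`. The graph with `s`-labelled edges
`E s` is tileable if some `τ : V → {0, ..., m - 1}` has `(τ v, τ w) ∈ R_s` for each edge. -/
def Tileable {V : Type} {k : ℕ} (E : Fin k → V → V → Prop) (I : ℕ × List (ℕ × ℕ × ℕ)) : Prop :=
  ∃ τ : V → ℕ, (∀ v, τ v < I.1) ∧
    ∀ (s : Fin k) (v w : V), E s v w → ((s : ℕ), τ v, τ w) ∈ I.2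

/-- The domino problem on the labelled graph is decidable. -/
def DominoDecidable {V : Type} {k : ℕ} (E : Fin k → V → V → Prop) : Prop :=
  ComputablePred (Tileable E)

/-- Monadic second-order formulas over `k` binary relations, with vertex variables and set
variables indexed by natural numbers. -/
inductive MSO (k : ℕ) : Type
  | eq (x y : ℕ) : MSO k
  | edge (s : Fin k) (x y : ℕ) : MSO k
  | mem (x X : ℕ) : MSO k
  | neg (φ : MSO k) : MSO k
  | and (φ ψ : MSO k) : MSO k
  | exV (x : ℕ) (φ : MSO k) : MSO k
  | exS (X : ℕ) (φ : MSO k) : MSO k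

namespace MSO

/-- Satisfaction of a formula under an assignment of vertices and of vertex sets. -/
def Sat {V : Type} {k : ℕ} (E : Fin k → V → V → Prop) :
    MSO k → (ℕ → V) → (ℕ → Set V) → Prop
  | eq x y, e, _ => e x = e y
  | edge s x y, e, _ => E s (e x) (e y)
  | mem x X, e, f => e x ∈ f X
  | neg φ, e, f => ¬ Sat E φ e f
  | and φ ψ, e, f => Sat E φ e f ∧ Sat E ψ e f
  | exV x φ, e, f => ∃ v : V, Sat E φ (Function.update e x v) f
  | exS X φ, e, f => ∃ W : Set V, Sat E φ e (Function.update f X W)

/-- All free vertex variables are in `A` and all free set variables are in `B`. -/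
def FreeIn {k : ℕ} : MSO k → Set ℕ → Set ℕ → Prop
  | eq x y, A, _ => x ∈ A ∧ y ∈ A
  | edge _ x y, A, _ => x ∈ A ∧ y ∈ A
  | mem x X, A, B => x ∈ A ∧ X ∈ B
  | neg φ, A, B => FreeIn φ A B
  | and φ ψ, A, B => FreeIn φ A B ∧ FreeIn ψ A B
  | exV x φ, A, B => FreeIn φ (insert x A) B
  | exS X φ, A, B => FreeIn φ A (insert X B)

/-- A sentence is a formula without free variables. -/
def IsSentence {k : ℕ} (φ : MSO k) : Prop := FreeIn φ ∅ ∅

/-- A standard Goedel numbering of the formulas. -/
def code {k : ℕ} : MSO k → ℕ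
  | eq x y => Nat.pair 0 (Nat.pair x y)
  | edge s x y => Nat.pair 1 (Nat.pair s (Nat.pair x y))
  | mem x X => Nat.pair 2 (Nat.pair x X)
  | neg φ => Nat.pair 3 (code φ)
  | and φ ψ => Nat.pair 4 (Nat.pair (code φ) (code ψ))
  | exV x φ => Nat.pair 5 (Nat.pair x (code φ))
  | exS X φ => Nat.pair 6 (Nat.pair X (code φ))

end MSO

/-- The monadic second-order theory of the labelled graph is decidable: some computable function
decides, from its Goedel number, whether a sentence is true in the graph. -/
def MSODecidable {V : Type} {k : ℕ} (E : Fin k → V → V → Prop) : Prop :=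
  ∃ f : ℕ → Bool, Computable f ∧ ∀ φ : MSO k, φ.IsSentence →
    (f φ.code = true ↔ ∀ e f, MSO.Sat E φ e f)

/-- The generator `a_i` of the Hanoi towers group on finite words: it leaves the initial letters
`i` unchanged and replaces the first letter `x ≠ i` by the third letter `-(i + x)` (mod 3). -/
def hanoiFun (i : Fin 3) : List (Fin 3) → List (Fin 3)
  | [] => []
  | x :: w => if x = i then i :: hanoiFun i w else (-(i + x)) :: w

theorem third_self (i : Fin 3) : -(i + i) = i := by revert i; decide

theorem third_invol (i x : Fin 3) : -(i + -(i + x)) = x := by revert i x; decide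

theorem third_eq_iff (i x : Fin 3) : -(i + x) = i ↔ x = i := by revert i x; decide

theorem third_ne (i x : Fin 3) (h : x ≠ i) : -(i + x) ≠ x := by revert i x; decide

theorem hanoiFun_cons_self (i : Fin 3) (w : List (Fin 3)) :
    hanoiFun i (i :: w) = i :: hanoiFun i w := by simp [hanoiFun]

theorem hanoiFun_cons_ne {i x : Fin 3} (h : x ≠ i) (w : List (Fin 3)) :
    hanoiFun i (x :: w) = (-(i + x)) :: w := by simp [hanoiFun, h]

theorem hanoiFun_invol (i : Fin 3) : Function.Involutive (hanoiFun i) := by
  intro w
  induction w with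
  | nil => rfl
  | cons x w ih =>
    by_cases h : x = i
    · subst h
      rw [hanoiFun_cons_self, hanoiFun_cons_self, ih]
    · rw [hanoiFun_cons_ne h, hanoiFun_cons_ne (by rwa [Ne, third_eq_iff]), third_invol]

/-- The generators of the Hanoi towers group, as permutations of the set of finite words. -/
def hanoi (i : Fin 3) : Equiv.Perm (List (Fin 3)) := (hanoiFun_invol i).toPerm

end Pool.Agent.Work.MP_9fe7bd_lc
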