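import Pool.Agent.Work.MP_9fe7bd_lc.Formulas

namespace Pool.Agent.Work.MP_9fe7bd_lc

/-- instances of the domino problem -/
abbrev Inst : Type := ℕ × List (ℕ × ℕ × ℕ)

/-- components of a triple -/
def gt (c : ℕ × ℕ × ℕ) (i : Fin 3) : ℕ := ![c.1, c.2.1, c.2.2] i

/-- compatibility of the corner colours of the three copies -/
def cond (I : Inst) (e0 e1 e2 : ℕ × ℕ × ℕ) : Prop :=
  ((0, e1.1, e2.1) ∈ I.2 ∧ (0, e2.1, e1.1) ∈ I.2) ∧
  ((1, e0.2.1, e2.2.1) ∈ I.2 ∧ (1, e2.2.1, e0.2.1) ∈ I.2) ∧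
  ((2, e0.2.2, e1.2.2) ∈ I.2 ∧ (2, e1.2.2, e0.2.2) ∈ I.2)

instance (I : Inst) (e0 e1 e2 : ℕ × ℕ × ℕ) : Decidable (cond I e0 e1 e2) := by
  unfold cond; infer_instance

def step (I : Inst) (C : List (ℕ × ℕ × ℕ)) : List (ℕ × ℕ × ℕ) :=
  C.flatMap fun e0 => C.flatMap fun e1 => C.filterMap fun e2 =>
    if cond I e0 e1 e2 then some (e0.1, e1.2.1, e2.2.2) else none

theorem mem_step {I : Inst} {C : List (ℕ × ℕ × ℕ)} {c : ℕ × ℕ × ℕ} :
    c ∈ step I C ↔ ∃ e0 ∈ C, ∃ e1 ∈ C, ∃ e2 ∈ C, cond I e0 e1 e2 ∧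
      c = (e0.1, e1.2.1, e2.2.2) := by
  simp only [step, List.mem_flatMap, List.mem_filterMap]
  constructor
  · rintro ⟨e0, h0, e1, h1, e2, h2, h⟩
    split_ifs at h with hc
    exact ⟨e0, h0, e1, h1, e2, h2, hc, (Option.some.inj h).symm⟩
  · rintro ⟨e0, h0, e1, h1, e2, h2, hc, rfl⟩
    exact ⟨e0, h0, e1, h1, e2, h2, by rw [if_pos hc]⟩

def base (I : Inst) : List (ℕ × ℕ × ℕ) := (List.range I.1).map fun t => (t, t, t)

def CL (I : Inst) (n : ℕ) : List (ℕ × ℕ × ℕ) := (step I)^[n] (base I)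

theorem CL_succ (I : Inst) (n : ℕ) : CL I (n + 1) = step I (CL I n) := by
  unfold CL; rw [Function.iterate_succ_apply']

/-- a valid colouring of the tile `T n η` -/
def Patch (I : Inst) (n : ℕ) (η : Om) (τ : Om → ℕ) : Prop :=
  (∀ ζ ∈ T n η, τ ζ < I.1) ∧
    ∀ s : Fin 3, ∀ ζ ∈ T n η, (∃ p < n, ζ p ≠ s) → ((s : ℕ), τ ζ, τ (A s ζ)) ∈ I.2

theorem corner_zero (i : Fin 3) (η : Om) : corner i 0 η = η := by
  funext p; simp [corner]

theorem corner_upd_self (i : Fin 3) (n : ℕ) (η : Om) :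
    corner i n (Function.update η n i) = corner i (n + 1) η := by
  funext p
  unfold corner
  by_cases h : p < n
  · rw [if_pos h, if_pos (by omega)]
  · rw [if_neg h]
    by_cases h2 : p = n
    · subst h2; rw [Function.update_self, if_pos (by omega)]
    · rw [Function.update_of_ne h2, if_neg (by omega)]

theorem corner_apply_self (i x : Fin 3) (n : ℕ) (η : Om) :
    corner i n (Function.update η n x) n = x := by
  unfold corner; rw [if_neg (by omega), Function.update_self]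

theorem A_corner {s x : Fin 3} (n : ℕ) (η : Om) (hx : x ≠ s) :
    A s (corner s n (Function.update η n x)) = corner s n (Function.update η n (-(s + x))) := by
  funext p
  rcases lt_trichotomy p n with h | h | h
  · unfold A
    rw [if_pos (fun m hm => by unfold corner; rw [if_pos (by omega)])]
    have h1 : corner s n (Function.update η n x) p = s := by unfold corner; rw [if_pos h]
    have h2 : corner s n (Function.update η n (-(s + x))) p = s := by
      unfold corner; rw [if_pos h]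
    rw [h1, h2, third_self]
  · subst h
    unfold A
    rw [if_pos (fun m hm => by unfold corner; rw [if_pos (by omega)]), corner_apply_self,
      corner_apply_self]
  · rw [A_apply_of_lt (p := n) (by rw [corner_apply_self]; exact hx) h]
    unfold corner
    rw [if_neg (by omega), if_neg (by omega), Function.update_of_ne (by omega),
      Function.update_of_ne (by omega)]

theorem T_upd_sub (n : ℕ) (η : Om) (x : Fin 3) : T n (Function.update η n x) ⊆ T (n + 1) η := by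
  intro ζ hζ m hm
  rw [hζ m (by omega), Function.update_of_ne (by omega)]

theorem mem_T_upd {n : ℕ} {η ζ : Om} (h : ζ ∈ T (n + 1) η) :
    ζ ∈ T n (Function.update η n (ζ n)) := by
  intro m hm
  by_cases h2 : m = n
  · subst h2; rw [Function.update_self]
  · rw [Function.update_of_ne h2, h m (by omega)]

theorem patch_iff (I : Inst) : ∀ (n : ℕ) (η : Om) (c : ℕ × ℕ × ℕ),
    (∃ τ, Patch I n η τ ∧ ∀ i, τ (corner i n η) = gt c i) ↔ c ∈ CL I n := by
  intro n
  induction n with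
  | zero =>
    intro η c
    simp only [CL, Function.iterate_zero, id, base, List.mem_map, List.mem_range]
    constructor
    · rintro ⟨τ, ⟨h1, _⟩, h2⟩
      refine ⟨τ η, h1 η (self_mem_T 0 η), ?_⟩
      have h0 := h2 0
      have h1 := h2 1
      have h3 := h2 2
      rw [corner_zero] at h0 h1 h3
      refine Prod.ext h0 (Prod.ext h1 h3)
    · rintro ⟨t, ht, rfl⟩
      refine ⟨fun _ => t, ⟨fun _ _ => ht, ?_⟩, fun i => ?_⟩
      · rintro s ζ _ ⟨p, hp, _⟩; omega
      · fin_cases i <;> rfl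
  | succ n ih =>
    intro η c
    rw [CL_succ, mem_step]
    constructor
    · rintro ⟨τ, ⟨h1, h2⟩, h3⟩
      have hsub : ∀ x, Patch I n (Function.update η n x) τ := fun x =>
        ⟨fun ζ hζ => h1 ζ (T_upd_sub n η x hζ), fun s ζ hζ ⟨p, hp, hp'⟩ =>
          h2 s ζ (T_upd_sub n η x hζ) ⟨p, by omega, hp'⟩⟩
      have hmem : ∀ x : Fin 3, (τ (corner 0 n (Function.update η n x)),
          τ (corner 1 n (Function.update η n x)), τ (corner 2 n (Function.update η n x))) ∈
            CL I n := fun x => (ih _ _).1 ⟨τ, hsub x, fun i => by fin_cases i <;> rfl⟩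
      have hc : ∀ s x : Fin 3, x ≠ s → ((s : ℕ), τ (corner s n (Function.update η n x)),
          τ (corner s n (Function.update η n (-(s + x))))) ∈ I.2 := by
        intro s x hx
        rw [← A_corner n η hx]
        refine h2 s _ (T_upd_sub n η x (corner_mem _ _ _)) ⟨n, by omega, ?_⟩
        rw [corner_apply_self]; exact hx
      refine ⟨_, hmem 0, _, hmem 1, _, hmem 2, ⟨⟨hc 0 1 (by decide), hc 0 2 (by decide)⟩,
        ⟨hc 1 0 (by decide), hc 1 2 (by decide)⟩, ⟨hc 2 0 (by decide), hc 2 1 (by decide)⟩⟩, ?_⟩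
      have e0 := h3 0
      have e1 := h3 1
      have e2 := h3 2
      rw [← corner_upd_self] at e0 e1 e2
      exact Prod.ext e0.symm (Prod.ext e1.symm e2.symm)
    · rintro ⟨e0, h0, e1, h1, e2, h2, hcond, rfl⟩
      obtain ⟨τ0, p0, q0⟩ := (ih (Function.update η n 0) e0).2 h0
      obtain ⟨τ1, p1, q1⟩ := (ih (Function.update η n 1) e1).2 h1
      obtain ⟨τ2, p2, q2⟩ := (ih (Function.update η n 2) e2).2 h2
      have hp : ∀ x : Fin 3, Patch I n (Function.update η n x) (![τ0, τ1, τ2] x) := by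
        intro x; fin_cases x
        · exact p0
        · exact p1
        · exact p2
      have hq : ∀ x i : Fin 3, ![τ0, τ1, τ2] x (corner i n (Function.update η n x)) =
          gt (![e0, e1, e2] x) i := by
        intro x; fin_cases x
        · exact q0
        · exact q1
        · exact q2
      have hc : ∀ s x : Fin 3, x ≠ s → ((s : ℕ), gt (![e0, e1, e2] x) s,
          gt (![e0, e1, e2] (-(s + x))) s) ∈ I.2 := by
        obtain ⟨⟨a1, a2⟩, ⟨a3, a4⟩, a5, a6⟩ := hcond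
        intro s x hx
        fin_cases s <;> fin_cases x <;> first
          | exact absurd rfl hx
          | assumption
      refine ⟨fun ζ => ![τ0, τ1, τ2] (ζ n) ζ, ⟨?_, ?_⟩, ?_⟩
      · intro ζ hζ
        exact (hp (ζ n)).1 ζ (mem_T_upd hζ)
      · rintro s ζ hζ ⟨p, hp1, hp2⟩
        by_cases hex : ∃ p < n, ζ p ≠ s
        · have h5 : A s ζ n = ζ n := by
            obtain ⟨p, hp3, hp4⟩ := hex
            exact A_apply_of_lt hp4 hp3
          show ((s : ℕ), ![τ0, τ1, τ2] (ζ n) ζ, ![τ0, τ1, τ2] (A s ζ n) (A s ζ)) ∈ I.2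
          rw [h5]
          exact (hp (ζ n)).2 s ζ (mem_T_upd hζ) hex
        · push Not at hex
          have hpn : p = n := by
            by_contra hne
            exact hp2 (hex p (by omega))
          subst hpn
          have hζc : ζ = corner s p (Function.update η p (ζ p)) := by
            funext m
            unfold corner
            by_cases hm : m < p
            · rw [if_pos hm]; exact hex m hm
            · rw [if_neg hm]; exact mem_T_upd hζ m (by omega)
          have h6 : A s ζ = corner s p (Function.update η p (-(s + ζ p))) := by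
            conv_lhs => rw [hζc]
            exact A_corner p η hp2
          have h7 : A s ζ p = -(s + ζ p) := by rw [h6, corner_apply_self]
          show ((s : ℕ), ![τ0, τ1, τ2] (ζ p) ζ, ![τ0, τ1, τ2] (A s ζ p) (A s ζ)) ∈ I.2
          rw [h7, h6]
          have h8 : ![τ0, τ1, τ2] (ζ p) ζ = gt (![e0, e1, e2] (ζ p)) s := by
            have := hq (ζ p) s
            rw [← hζc] at this
            exact this
          rw [h8, hq]
          exact hc s (ζ p) hp2
      · intro i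
        have h5 : corner i (n + 1) η n = i := by unfold corner; rw [if_pos (by omega)]
        show ![τ0, τ1, τ2] (corner i (n + 1) η n) (corner i (n + 1) η) = _
        rw [h5, ← corner_upd_self, hq]
        fin_cases i <;> rfl

/-- tilings of a class of cofinal words -/
def TileCl (I : Inst) (ξ : Om) : Prop :=
  ∃ τ : Om → ℕ, (∀ ζ ∈ Cl ξ, τ ζ < I.1) ∧
    ∀ s : Fin 3, ∀ ζ ∈ Cl ξ, ((s : ℕ), τ ζ, τ (A s ζ)) ∈ I.2

theorem tileable_iff (ξ : Om) (I : Inst) : Tileable (Edge hanoi ξ) I ↔ TileCl I ξ := by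
  classical
  constructor
  · rintro ⟨τ, h1, h2⟩
    refine ⟨fun ζ => if h : ζ ∈ Cl ξ then τ (mkV ζ h) else 0, ?_, ?_⟩
    · intro ζ hζ
      simp only [dif_pos hζ]
      exact h1 _
    · intro s ζ hζ
      simp only [dif_pos hζ, dif_pos (A_mem_Cl s hζ)]
      exact h2 s _ _ ((edge_iff s _ _).2 rfl)
  · rintro ⟨τ, h1, h2⟩
    refine ⟨fun v => τ v.1, fun v => h1 _ (V_cof v), fun s v w h => ?_⟩
    rw [edge_iff] at h
    show ((s : ℕ), τ v.1, τ w.1) ∈ I.2
    rw [h]
    exact h2 s _ (V_cof v)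

/-- the compactness argument -/
theorem compact_tile (I : Inst) (η : Om) (P : Set (ℕ × Om))
    (h : ∀ n, ∃ τ, Patch I n η τ ∧ ∀ q ∈ P, q.2 ∈ T 0 η ∧ (q.1, τ q.2, τ q.2) ∈ I.2) :
    ∃ τ : Om → ℕ, (∀ ζ, τ ζ < I.1) ∧
      (∀ s : Fin 3, ∀ ζ ∈ Cl η, (∃ p, ζ p ≠ s) → ((s : ℕ), τ ζ, τ (A s ζ)) ∈ I.2) ∧
      ∀ q ∈ P, (q.1, τ q.2, τ q.2) ∈ I.2 := by
  classical
  obtain ⟨m, L⟩ := I
  have hm : 0 < m := by
    obtain ⟨τ, hτ, _⟩ := h 0
    exact lt_of_le_of_lt (Nat.zero_le _) (hτ.1 η (self_mem_T 0 η))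
  let K : ℕ → Set (Om → Fin m) := fun n =>
    {τ | (∀ s : Fin 3, ∀ ζ ∈ T n η, (∃ p < n, ζ p ≠ s) →
      ((s : ℕ), ((τ ζ : Fin m) : ℕ), ((τ (A s ζ) : Fin m) : ℕ)) ∈ L) ∧
      ∀ q ∈ P, (q.1, ((τ q.2 : Fin m) : ℕ), ((τ q.2 : Fin m) : ℕ)) ∈ L}
  have hclosed2 : ∀ (a : ℕ) (x y : Om),
      IsClosed {τ : Om → Fin m | (a, ((τ x : Fin m) : ℕ), ((τ y : Fin m) : ℕ)) ∈ L} := by
    intro a x y
    have hcont : Continuous fun τ : Om → Fin m => (τ x, τ y) :=
      (continuous_apply x).prodMk (continuous_apply y)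
    exact (isClosed_discrete {p : Fin m × Fin m | (a, (p.1 : ℕ), (p.2 : ℕ)) ∈ L}).preimage hcont
  have hK : ∀ n, IsClosed (K n) := by
    intro n
    have : K n = (⋂ (s : Fin 3) (ζ : Om) (_ : ζ ∈ T n η) (_ : ∃ p < n, ζ p ≠ s),
        {τ : Om → Fin m | ((s : ℕ), ((τ ζ : Fin m) : ℕ), ((τ (A s ζ) : Fin m) : ℕ)) ∈ L}) ∩
        ⋂ (q : ℕ × Om) (_ : q ∈ P),
          {τ : Om → Fin m | (q.1, ((τ q.2 : Fin m) : ℕ), ((τ q.2 : Fin m) : ℕ)) ∈ L} := by
      ext τ
      simp only [K, Set.mem_ofPred_eq, Set.mem_inter_iff, Set.mem_iInter]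
    rw [this]
    refine IsClosed.inter ?_ ?_
    · exact isClosed_iInter fun s => isClosed_iInter fun ζ => isClosed_iInter fun _ =>
        isClosed_iInter fun _ => hclosed2 _ _ _
    · exact isClosed_iInter fun q => isClosed_iInter fun _ => hclosed2 _ _ _
  have hne : ∀ n, (K n).Nonempty := by
    intro n
    obtain ⟨τ, ⟨h1, h2⟩, h3⟩ := h n
    refine ⟨fun ζ => if hlt : τ ζ < m then ⟨τ ζ, hlt⟩ else ⟨0, hm⟩, ?_, ?_⟩
    · intro s ζ hζ hex
      have h4 : τ ζ < m := h1 ζ hζ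
      have h5 : τ (A s ζ) < m := by
        obtain ⟨p, hp, hp'⟩ := hex
        exact h1 _ (A_mem_T hζ hp hp')
      simp only [dif_pos h4, dif_pos h5]
      exact h2 s ζ hζ hex
    · intro q hq
      have h4 : τ q.2 < m := by
        apply h1
        exact T_mono (Nat.zero_le n) η (h3 q hq).1
      simp only [dif_pos h4]
      exact (h3 q hq).2
  have hanti : ∀ n, K (n + 1) ⊆ K n := by
    rintro n τ ⟨h1, h2⟩
    exact ⟨fun s ζ hζ ⟨p, hp, hp'⟩ => h1 s ζ (T_mono (by omega) η hζ) ⟨p, by omega, hp'⟩, h2⟩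
  obtain ⟨τ, hτ⟩ := IsCompact.nonempty_iInter_of_sequence_nonempty_isCompact_isClosed K hanti
    hne (hK 0).isCompact hK
  rw [Set.mem_iInter] at hτ
  refine ⟨fun ζ => (τ ζ : ℕ), fun ζ => (τ ζ).2, ?_, (hτ 0).2⟩
  rintro s ζ ⟨N, hN⟩ ⟨p, hp⟩
  exact (hτ (max N (p + 1))).1 s ζ (fun k hk => (hN k (by omega)).symm) ⟨p, by omega, hp⟩

/-- tileability for rays that are not eventually constant -/
theorem tileCl_iff_nonSing {ξ : Om} (hξ : NonSing ξ) (I : Inst) :
    TileCl I ξ ↔ ∀ n, ∃ c ∈ CL I n, True := by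
  constructor
  · rintro ⟨τ, h1, h2⟩ n
    have hsub : T n ξ ⊆ Cl ξ := fun ζ hζ => cof_of_mem_T hζ
    exact ⟨(τ (corner 0 n ξ), τ (corner 1 n ξ), τ (corner 2 n ξ)),
      (patch_iff I n ξ _).1 ⟨τ, ⟨fun ζ hζ => h1 ζ (hsub hζ), fun s ζ hζ _ => h2 s ζ (hsub hζ)⟩,
        fun i => by fin_cases i <;> rfl⟩, trivial⟩
  · intro h
    obtain ⟨τ, h1, h2, _⟩ := compact_tile I ξ ∅ (fun n => by
      obtain ⟨c, hc, _⟩ := h n
      obtain ⟨τ, hτ, _⟩ := (patch_iff I n ξ c).2 hc
      exact ⟨τ, hτ, fun q hq => absurd hq (Set.notMem_empty q)⟩)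
    refine ⟨τ, fun ζ _ => h1 ζ, fun s ζ hζ => h2 s ζ hζ ?_⟩
    obtain ⟨p, _, hp⟩ := (hξ.cof hζ) s 0
    exact ⟨p, hp⟩

theorem corner_const (i : Fin 3) (n : ℕ) : corner i n (fun _ => i) = fun _ => i := by
  funext p; unfold corner; split_ifs <;> rfl

/-- tileability for eventually constant rays -/
theorem tileCl_iff_sing {ξ : Om} {i : Fin 3} (hξ : Cof ξ (fun _ => i)) (I : Inst) :
    TileCl I ξ ↔ ∀ n, ∃ c ∈ CL I n, ((i : ℕ), gt c i, gt c i) ∈ I.2 := by
  constructor
  · rintro ⟨τ, h1, h2⟩ n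
    have hsub : T n (fun _ => i) ⊆ Cl ξ := fun ζ hζ => Cof.trans hξ (cof_of_mem_T hζ)
    refine ⟨(τ (corner 0 n (fun _ => i)), τ (corner 1 n (fun _ => i)),
      τ (corner 2 n (fun _ => i))),
      (patch_iff I n (fun _ => i) _).1 ⟨τ, ⟨fun ζ hζ => h1 ζ (hsub hζ),
        fun s ζ hζ _ => h2 s ζ (hsub hζ)⟩, fun i => by fin_cases i <;> rfl⟩, ?_⟩
    have h3 : gt (τ (corner 0 n (fun _ => i)), τ (corner 1 n (fun _ => i)),
      τ (corner 2 n (fun _ => i))) i = τ (fun _ => i) := by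
      have : ∀ j : Fin 3, gt (τ (corner 0 n (fun _ => i)), τ (corner 1 n (fun _ => i)),
        τ (corner 2 n (fun _ => i))) j = τ (corner j n (fun _ => i)) := by
        intro j; fin_cases j <;> rfl
      rw [this, corner_const]
    rw [h3]
    have h4 := h2 i (fun _ => i) hξ
    rwa [A_const (fun _ => rfl)] at h4
  · intro h
    obtain ⟨τ, h1, h2, h3⟩ := compact_tile I (fun _ => i) {((i : ℕ), fun _ => i)} (fun n => by
      obtain ⟨c, hc, hc'⟩ := h n
      obtain ⟨τ, hτ, hτ'⟩ := (patch_iff I n (fun _ => i) c).2 hc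
      refine ⟨τ, hτ, ?_⟩
      rintro q rfl
      refine ⟨self_mem_T _ _, ?_⟩
      have h4 := hτ' i
      rw [corner_const] at h4
      rw [h4]
      exact hc')
    refine ⟨τ, fun ζ _ => h1 ζ, fun s ζ hζ => ?_⟩
    have hζ' : ζ ∈ Cl (fun _ => i) := Cof.trans hξ.symm hζ
    by_cases hex : ∃ p, ζ p ≠ s
    · exact h2 s ζ hζ' hex
    · push Not at hex
      have hζs : ζ = fun _ => s := funext hex
      have hsi : i = s := by
        obtain ⟨N, hN⟩ := hζ'
        have := hN N le_rfl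
        rw [hex] at this
        exact this
      subst hsi
      rw [A_const hex, hζs]
      exact h3 _ rfl

theorem exists_const_of_not_nonSing {ξ : Om} (h : ¬ NonSing ξ) : ∃ i : Fin 3, Cof ξ (fun _ => i) := by
  unfold NonSing at h
  push Not at h
  obtain ⟨i, N, h⟩ := h
  exact ⟨i, N, h⟩

end Pool.Agent.Work.MP_9fe7bd_lc
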