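import Pool.Agent.Work.MP_9fe7bd_lc.Tiles2

namespace Pool.Agent.Work.MP_9fe7bd_lc

open MSO

/-- vertices of the Schreier graph -/
abbrev V (ξ : Om) : Type := Orb (Subgroup.closure (Set.range hanoi)) ξ

theorem V_cof {ξ : Om} (v : V ξ) : v.1 ∈ Cl ξ := (orb_iff ξ v.1).1 v.2

/-- make a vertex -/
def mkV {ξ : Om} (η : Om) (h : η ∈ Cl ξ) : V ξ := ⟨η, (orb_iff ξ η).2 h⟩

theorem V_ext {ξ : Om} {v w : V ξ} (h : v.1 = w.1) : v = w := Subtype.ext h

theorem edge_iff {ξ : Om} (s : Fin 3) (v w : V ξ) : Edge hanoi ξ s v w ↔ w.1 = A s v.1 :=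
  maps_hanoi_iff s v.1 w.1

/-- the underlying set of infinite words -/
def im {ξ : Om} (W : Set (V ξ)) : Set Om := {η | ∃ v ∈ W, v.1 = η}

theorem mem_im {ξ : Om} {W : Set (V ξ)} {v : V ξ} : v.1 ∈ im W ↔ v ∈ W :=
  ⟨fun ⟨_, hw, e⟩ => V_ext e ▸ hw, fun h => ⟨v, h, rfl⟩⟩

theorem im_sub {ξ : Om} (W : Set (V ξ)) : im W ⊆ Cl ξ := by
  rintro _ ⟨v, _, rfl⟩; exact V_cof v

theorem exists_im {ξ : Om} {U : Set Om} (h : U ⊆ Cl ξ) : ∃ W : Set (V ξ), im W = U := by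
  refine ⟨{v | v.1 ∈ U}, ?_⟩
  ext η
  constructor
  · rintro ⟨v, hv, rfl⟩; exact hv
  · intro hη; exact ⟨mkV η (h hη), hη, rfl⟩

theorem im_inj {ξ : Om} {W W' : Set (V ξ)} (h : im W = im W') : W = W' := by
  ext v; rw [← mem_im, h, mem_im]

/-- derived connectives -/
def fImp (φ ψ : MSO 3) : MSO 3 := neg (and φ (neg ψ))
def fOr (φ ψ : MSO 3) : MSO 3 := neg (and (neg φ) (neg ψ))
def allV (x : ℕ) (φ : MSO 3) : MSO 3 := neg (exV x (neg φ))
def allS (x : ℕ) (φ : MSO 3) : MSO 3 := neg (exS x (neg φ))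

section sat
variable {U : Type} {E : Fin 3 → U → U → Prop} {φ ψ : MSO 3} {e : ℕ → U} {f : ℕ → Set U}

theorem sat_imp : Sat E (fImp φ ψ) e f ↔ (Sat E φ e f → Sat E ψ e f) := by
  simp only [fImp, Sat]; tauto
theorem sat_or : Sat E (fOr φ ψ) e f ↔ (Sat E φ e f ∨ Sat E ψ e f) := by
  simp only [fOr, Sat]; tauto
theorem sat_and : Sat E (MSO.and φ ψ) e f ↔ (Sat E φ e f ∧ Sat E ψ e f) := Iff.rfl
theorem sat_neg : Sat E (MSO.neg φ) e f ↔ ¬ Sat E φ e f := Iff.rfl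
theorem sat_exV {x : ℕ} : Sat E (exV x φ) e f ↔ ∃ v, Sat E φ (Function.update e x v) f := Iff.rfl
theorem sat_exS {x : ℕ} : Sat E (exS x φ) e f ↔ ∃ v, Sat E φ e (Function.update f x v) := Iff.rfl
theorem sat_allV {x : ℕ} : Sat E (allV x φ) e f ↔ ∀ v, Sat E φ (Function.update e x v) f := by
  simp only [allV, Sat, not_exists, not_not]
theorem sat_allS {x : ℕ} : Sat E (allS x φ) e f ↔ ∀ v, Sat E φ e (Function.update f x v) := by
  simp only [allS, Sat, not_exists, not_not]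
theorem sat_mem {x X : ℕ} : Sat E (MSO.mem x X) e f ↔ e x ∈ f X := Iff.rfl
theorem sat_eq {x y : ℕ} : Sat E (MSO.eq x y) e f ↔ e x = e y := Iff.rfl

end sat

/-- the `i`-neighbour of the vertex `x` is in `X`; auxiliary variable 2 -/
def memA (i : Fin 3) (x X : ℕ) : MSO 3 := exV 2 (and (edge i x 2) (mem 2 X))

/-- exactly one crossing edge of label `i` -/
def crossF (i : Fin 3) (X : ℕ) : MSO 3 :=
  exV 0 (and (mem 0 X) (and (neg (memA i 0 X))
    (allV 1 (fImp (mem 1 X) (fImp (neg (memA i 1 X)) (eq 1 0))))))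

/-- existence of the partition; set variables 5, 6, 7 -/
def pmF (X : ℕ) : MSO 3 :=
  exS 5 (exS 6 (exS 7 (allV 0 (and
    (and (fImp (mem 0 X) (fOr (mem 0 5) (fOr (mem 0 6) (mem 0 7))))
      (fImp (fOr (mem 0 5) (fOr (mem 0 6) (mem 0 7))) (mem 0 X)))
    (and (and (neg (and (mem 0 5) (mem 0 6)))
        (and (neg (and (mem 0 5) (mem 0 7))) (neg (and (mem 0 6) (mem 0 7)))))
      (and (fImp (mem 0 5) (memA 0 0 5))
        (and (fImp (mem 0 6) (memA 1 0 6)) (fImp (mem 0 7) (memA 2 0 7)))))))))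

/-- being a tile -/
def thetaF (X : ℕ) : MSO 3 :=
  and (and (crossF 0 X) (and (crossF 1 X) (crossF 2 X))) (neg (pmF X))

def subF (X Y : ℕ) : MSO 3 := allV 0 (fImp (mem 0 X) (mem 0 Y))

def ssubF (X Y : ℕ) : MSO 3 := and (subF X Y) (neg (subF Y X))

/-- the next tile; set variable 4 -/
def nxtF (X Y : ℕ) : MSO 3 :=
  and (thetaF Y) (and (ssubF X Y)
    (allS 4 (fImp (thetaF 4) (fImp (ssubF X 4) (fImp (subF 4 Y) (subF Y 4))))))

def digF (d : Fin 3) (X Y : ℕ) : MSO 3 := exV 0 (and (mem 0 X) (neg (memA d 0 Y)))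

def chiF : List (Fin 3) → ℕ → MSO 3
  | [], _ => allV 0 (eq 0 0)
  | d :: p, b => exS (1 - b) (and (nxtF b (1 - b)) (and (digF d b (1 - b)) (chiF p (1 - b))))

/-- the sentence for the word `p` -/
def psiF (p : List (Fin 3)) : MSO 3 :=
  allS 2 (fImp (thetaF 2) (exS 0 (and (thetaF 0) (and (subF 2 0) (chiF p 0)))))

section sem
variable {ξ : Om} {e : ℕ → V ξ} {f : ℕ → Set (V ξ)}

theorem sat_memA {i : Fin 3} {x X : ℕ} (hx : x ≠ 2) :
    Sat (Edge hanoi ξ) (memA i x X) e f ↔ A i (e x).1 ∈ im (f X) := by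
  simp only [memA, Sat, Function.update_self, Function.update_of_ne hx]
  constructor
  · rintro ⟨v, h1, h2⟩
    rw [edge_iff] at h1
    exact ⟨v, h2, h1⟩
  · rintro ⟨v, h1, h2⟩
    exact ⟨v, (edge_iff i _ _).2 h2, h1⟩

theorem sat_crossF {i : Fin 3} {X : ℕ} :
    Sat (Edge hanoi ξ) (crossF i X) e f ↔ ∃ x, Cross (im (f X)) i x := by
  simp only [crossF, sat_exV, sat_and, sat_neg, sat_mem, sat_allV, sat_imp, sat_eq,
    sat_memA (by decide : (0 : ℕ) ≠ 2), sat_memA (by decide : (1 : ℕ) ≠ 2),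
    Function.update_self, Function.update_of_ne (by decide : (0 : ℕ) ≠ 1)]
  constructor
  · rintro ⟨v, h1, h2, h3⟩
    refine ⟨v.1, mem_im.2 h1, h2, ?_⟩
    rintro _ ⟨w, hw, rfl⟩ h4
    exact congrArg Subtype.val (h3 w hw h4)
  · rintro ⟨_, ⟨v, hv, rfl⟩, h2, h3⟩
    exact ⟨v, hv, h2, fun w hw h4 => V_ext (h3 w.1 (mem_im.2 hw) h4)⟩

theorem sat_pmF {X : ℕ} (hX : X < 5) :
    Sat (Edge hanoi ξ) (pmF X) e f ↔ PM (im (f X)) := by
  have h5 : X ≠ 5 := by omega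
  have h6 : X ≠ 6 := by omega
  have h7 : X ≠ 7 := by omega
  simp only [pmF, sat_exS, sat_and, sat_neg, sat_mem, sat_allV, sat_imp, sat_or,
    sat_memA (by decide : (0 : ℕ) ≠ 2), Function.update_self,
    Function.update_of_ne (by decide : (5 : ℕ) ≠ 6), Function.update_of_ne (by decide : (5 : ℕ) ≠ 7),
    Function.update_of_ne (by decide : (6 : ℕ) ≠ 7), Function.update_of_ne h5,
    Function.update_of_ne h6, Function.update_of_ne h7]
  constructor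
  · rintro ⟨M0, M1, M2, h⟩
    refine ⟨![im M0, im M1, im M2], ?_, ?_, ?_⟩
    · intro x
      constructor
      · rintro ⟨v, hv, rfl⟩
        rcases (h v).1.1 hv with h0 | h0 | h0
        · exact ⟨0, mem_im.2 h0⟩
        · exact ⟨1, mem_im.2 h0⟩
        · exact ⟨2, mem_im.2 h0⟩
      · rintro ⟨i, hi⟩
        fin_cases i
        · obtain ⟨v, hv, rfl⟩ := hi
          exact mem_im.2 ((h v).1.2 (Or.inl hv))
        · obtain ⟨v, hv, rfl⟩ := hi
          exact mem_im.2 ((h v).1.2 (Or.inr (Or.inl hv)))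
        · obtain ⟨v, hv, rfl⟩ := hi
          exact mem_im.2 ((h v).1.2 (Or.inr (Or.inr hv)))
    · intro i j x hi hj
      fin_cases i <;> fin_cases j <;> first
        | rfl
        | (exfalso
           obtain ⟨v, hv, rfl⟩ := hi
           have hj' := mem_im.1 hj
           have h3 := (h v).2.1
           tauto)
    · intro i x hi
      fin_cases i
      · obtain ⟨v, hv, rfl⟩ := hi
        exact (h v).2.2.1 hv
      · obtain ⟨v, hv, rfl⟩ := hi
        exact (h v).2.2.2.1 hv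
      · obtain ⟨v, hv, rfl⟩ := hi
        exact (h v).2.2.2.2 hv
  · rintro ⟨M, h1, h2, h3⟩
    have hsub : ∀ i, M i ⊆ Cl ξ := fun i x hx => im_sub _ ((h1 x).2 ⟨i, hx⟩)
    obtain ⟨M0, e0⟩ := exists_im (hsub 0)
    obtain ⟨M1, e1⟩ := exists_im (hsub 1)
    obtain ⟨M2, e2⟩ := exists_im (hsub 2)
    refine ⟨M0, M1, M2, fun v => ⟨⟨?_, ?_⟩, ⟨?_, ?_, ?_⟩, ?_, ?_, ?_⟩⟩
    · intro hv
      obtain ⟨i, hi⟩ := (h1 v.1).1 (mem_im.2 hv)
      fin_cases i
      · left; exact mem_im.1 (e0 ▸ hi)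
      · right; left; exact mem_im.1 (e1 ▸ hi)
      · right; right; exact mem_im.1 (e2 ▸ hi)
    · rintro (hv | hv | hv)
      · exact mem_im.1 ((h1 v.1).2 ⟨0, e0 ▸ mem_im.2 hv⟩)
      · exact mem_im.1 ((h1 v.1).2 ⟨1, e1 ▸ mem_im.2 hv⟩)
      · exact mem_im.1 ((h1 v.1).2 ⟨2, e2 ▸ mem_im.2 hv⟩)
    · rintro ⟨ha, hb⟩
      have := h2 0 1 v.1 (e0 ▸ mem_im.2 ha) (e1 ▸ mem_im.2 hb)
      exact absurd this (by decide)
    · rintro ⟨ha, hb⟩
      have := h2 0 2 v.1 (e0 ▸ mem_im.2 ha) (e2 ▸ mem_im.2 hb)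
      exact absurd this (by decide)
    · rintro ⟨ha, hb⟩
      have := h2 1 2 v.1 (e1 ▸ mem_im.2 ha) (e2 ▸ mem_im.2 hb)
      exact absurd this (by decide)
    · intro hv
      rw [e0]; exact h3 0 v.1 (e0 ▸ mem_im.2 hv)
    · intro hv
      rw [e1]; exact h3 1 v.1 (e1 ▸ mem_im.2 hv)
    · intro hv
      rw [e2]; exact h3 2 v.1 (e2 ▸ mem_im.2 hv)

theorem sat_thetaF (hξ : NonSing ξ) {X : ℕ} (hX : X < 5) :
    Sat (Edge hanoi ξ) (thetaF X) e f ↔ IsTile ξ (im (f X)) := by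
  rw [isTile_iff hξ]
  simp only [thetaF, sat_and, sat_neg, sat_crossF, sat_pmF hX]
  constructor
  · rintro ⟨⟨h0, h1, h2⟩, h3⟩
    refine ⟨⟨im_sub _, fun i => ?_⟩, h3⟩
    fin_cases i
    · exact h0
    · exact h1
    · exact h2
  · rintro ⟨⟨_, h⟩, h3⟩
    exact ⟨⟨h 0, h 1, h 2⟩, h3⟩

theorem sat_subF {X Y : ℕ} :
    Sat (Edge hanoi ξ) (subF X Y) e f ↔ im (f X) ⊆ im (f Y) := by
  simp only [subF, sat_allV, sat_imp, sat_mem, Function.update_self]
  constructor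
  · rintro h _ ⟨v, hv, rfl⟩
    exact mem_im.2 (h v hv)
  · intro h v hv
    exact mem_im.1 (h (mem_im.2 hv))

theorem sat_ssubF {X Y : ℕ} :
    Sat (Edge hanoi ξ) (ssubF X Y) e f ↔ im (f X) ⊂ im (f Y) := by
  simp only [ssubF, sat_and, sat_neg, sat_subF]
  rfl

theorem sat_nxtF (hξ : NonSing ξ) {X Y : ℕ} (hX : X < 4) (hY : Y < 4) :
    Sat (Edge hanoi ξ) (nxtF X Y) e f ↔ Nxt ξ (im (f X)) (im (f Y)) := by
  have h1 : X ≠ 4 := by omega
  have h2 : Y ≠ 4 := by omega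
  simp only [nxtF, sat_and, sat_allS, sat_imp, sat_thetaF hξ (by omega : Y < 5), sat_ssubF,
    sat_subF, sat_thetaF hξ (by decide : 4 < 5), Function.update_self,
    Function.update_of_ne h1, Function.update_of_ne h2, Nxt]
  constructor
  · rintro ⟨h3, h4, h5⟩
    refine ⟨h3, h4, fun W'' h6 h7 h8 => ?_⟩
    obtain ⟨W, rfl⟩ := exists_im (h8.trans (im_sub _))
    exact Set.Subset.antisymm h8 (h5 W h6 h7 h8)
  · rintro ⟨h3, h4, h5⟩
    exact ⟨h3, h4, fun W h6 h7 h8 => (h5 _ h6 h7 h8).symm.subset⟩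

theorem sat_digF {d : Fin 3} {X Y : ℕ} :
    Sat (Edge hanoi ξ) (digF d X Y) e f ↔ ∃ x ∈ im (f X), A d x ∉ im (f Y) := by
  simp only [digF, sat_exV, sat_and, sat_neg, sat_mem, sat_memA (by decide : (0 : ℕ) ≠ 2),
    Function.update_self]
  constructor
  · rintro ⟨v, h1, h2⟩
    exact ⟨v.1, mem_im.2 h1, h2⟩
  · rintro ⟨_, ⟨v, hv, rfl⟩, h2⟩
    exact ⟨v, hv, h2⟩

theorem sat_chiF (hξ : NonSing ξ) : ∀ (p : List (Fin 3)) (b : ℕ), b < 2 →
    ∀ (f : ℕ → Set (V ξ)), Sat (Edge hanoi ξ) (chiF p b) e f ↔ Chi ξ p (im (f b)) := by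
  intro p
  induction p with
  | nil =>
    intro b _ f
    simp only [chiF, Chi, sat_allV, sat_eq, iff_true]
    intro v
    trivial
  | cons d p ih =>
    intro b hb f
    have h1 : b ≠ 1 - b := by omega
    simp only [chiF, Chi, sat_exS, sat_and, sat_nxtF hξ (by omega : b < 4) (by omega : 1 - b < 4),
      sat_digF, ih (1 - b) (by omega), Function.update_self, Function.update_of_ne h1]
    constructor
    · rintro ⟨W, h2⟩
      exact ⟨im W, h2⟩
    · rintro ⟨W', h2, h3⟩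
      have hsub : W' ⊆ Cl ξ := by
        obtain ⟨n, η, hη, rfl⟩ := h2.1
        exact fun ζ hζ => Cof.trans hη (cof_of_mem_T hζ)
      obtain ⟨W, rfl⟩ := exists_im hsub
      exact ⟨W, h2, h3⟩

theorem sat_psiF (hξ : NonSing ξ) (p : List (Fin 3)) :
    Sat (Edge hanoi ξ) (psiF p) e f ↔ InfOcc ξ p := by
  rw [← psi_iff hξ]
  have hsub : ∀ W, IsTile ξ W → W ⊆ Cl ξ := by
    rintro W ⟨n, η, hη, rfl⟩
    exact fun ζ hζ => Cof.trans hη (cof_of_mem_T hζ)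
  simp only [psiF, Psi, sat_allS, sat_imp, sat_exS, sat_and, sat_thetaF hξ (by decide : 2 < 5),
    sat_thetaF hξ (by decide : 0 < 5), sat_subF, sat_chiF hξ p 0 (by decide),
    Function.update_self, Function.update_of_ne (by decide : (2 : ℕ) ≠ 0)]
  constructor
  · intro h W hW
    obtain ⟨W, rfl⟩ := exists_im (hsub W hW)
    obtain ⟨W', h1, h2⟩ := h W hW
    exact ⟨im W', h1, h2⟩
  · intro h W hW
    obtain ⟨W', h1, h2⟩ := h (im W) hW
    obtain ⟨W', rfl⟩ := exists_im (hsub W' h1)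
    exact ⟨W', h1, h2⟩

end sem

theorem chiF_free : ∀ (p : List (Fin 3)) (b : ℕ), b < 2 → ∀ (A B : Set ℕ), b ∈ B →
    FreeIn (chiF p b) A B := by
  intro p
  induction p with
  | nil =>
    intro b _ A B _
    simp [chiF, allV, FreeIn]
  | cons d p ih =>
    intro b hb A B hB
    simp only [chiF, FreeIn]
    refine ⟨?_, ?_, ih _ (by omega) _ _ (Set.mem_insert _ _)⟩
    · simp [nxtF, thetaF, crossF, pmF, subF, ssubF, memA, allV, allS, fImp, fOr, FreeIn, hB]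
    · simp [digF, memA, FreeIn, hB]

theorem psiF_sentence (p : List (Fin 3)) : (psiF p).IsSentence := by
  unfold IsSentence psiF
  simp only [allS, fImp, FreeIn]
  refine ⟨?_, ?_, ?_, chiF_free p 0 (by decide) _ _ (Set.mem_insert _ _)⟩
  · simp [thetaF, crossF, pmF, memA, allV, fImp, fOr, FreeIn]
  · simp [thetaF, crossF, pmF, memA, allV, fImp, fOr, FreeIn]
  · simp [subF, allV, fImp, FreeIn]

end Pool.Agent.Work.MP_9fe7bd_lc
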