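import Pool.Agent.Work.MP_9fe7bd_lc.Defs

namespace Pool.Agent.Work.MP_9fe7bd_lc

theorem hanoi_apply (i : Fin 3) (w : List (Fin 3)) : hanoi i w = hanoiFun i w := rfl

theorem hanoi_mul_self (i : Fin 3) : hanoi i * hanoi i = 1 := by
  ext1 w
  exact hanoiFun_invol i w

theorem hanoi_inv (i : Fin 3) : (hanoi i)⁻¹ = hanoi i := by
  rw [inv_eq_iff_mul_eq_one, hanoi_mul_self]

theorem hanoi_cons_self (i : Fin 3) (w : List (Fin 3)) :
    hanoi i (i :: w) = i :: hanoi i w := hanoiFun_cons_self i w

theorem hanoi_cons_ne {i x : Fin 3} (h : x ≠ i) (w : List (Fin 3)) :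
    hanoi i (x :: w) = (-(i + x)) :: w := hanoiFun_cons_ne h w

/-- The Hanoi towers group. -/
def HG : Subgroup (Equiv.Perm (List (Fin 3))) := Subgroup.closure (Set.range hanoi)

theorem hanoi_mem (i : Fin 3) : hanoi i ∈ HG := Subgroup.subset_closure ⟨i, rfl⟩

theorem HG_selfSimilar : IsSelfSimilar HG := by
  constructor
  · intro g hg
    induction hg using Subgroup.closure_induction with
    | mem x hx => obtain ⟨i, rfl⟩ := hx; rfl
    | one => rfl
    | mul x y _ _ hx hy => rw [Equiv.Perm.mul_apply, hy, hx]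
    | inv x _ hx => rw [Equiv.Perm.inv_eq_iff_eq, hx]
  · intro g hg
    induction hg using Subgroup.closure_induction with
    | mem x hx =>
      obtain ⟨i, rfl⟩ := hx
      intro x
      by_cases h : x = i
      · subst h
        exact ⟨x, hanoi x, hanoi_mem x, fun w => hanoi_cons_self x w⟩
      · exact ⟨-(i + x), 1, HG.one_mem, fun w => hanoi_cons_ne h w⟩
    | one => exact fun x => ⟨x, 1, HG.one_mem, fun w => rfl⟩
    | mul g h _ _ hg hh =>
      intro x
      obtain ⟨y, k, hk, e⟩ := hh x
      obtain ⟨z, l, hl, e'⟩ := hg y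
      exact ⟨z, l * k, HG.mul_mem hl hk, fun w => by
        rw [Equiv.Perm.mul_apply, e, e', Equiv.Perm.mul_apply]⟩
    | inv g hg0 hg =>
      intro x
      -- choose `y` with `g` mapping the first letter `y` to `x`
      have key : ∃ y, ∃ h ∈ HG, ∀ w, g (y :: w) = x :: h w := by
        choose f s hs e using hg
        have hinj : Function.Injective f := by
          intro a b hab
          have h1 := e a ((s a)⁻¹ [])
          have h2 := e b ((s b)⁻¹ [])
          rw [← Equiv.Perm.mul_apply, mul_inv_cancel, Equiv.Perm.one_apply] at h1 h2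
          rw [hab] at h1
          have := g.injective (h1.trans h2.symm)
          exact (List.cons.inj this).1
        obtain ⟨y, hy⟩ := (Finite.injective_iff_surjective.1 hinj) x
        exact ⟨y, s y, hs y, fun w => by rw [e, hy]⟩
      obtain ⟨y, h, hh, e⟩ := key
      refine ⟨y, h⁻¹, HG.inv_mem hh, fun w => ?_⟩
      rw [Equiv.Perm.inv_eq_iff_eq, e, ← Equiv.Perm.mul_apply, mul_inv_cancel,
        Equiv.Perm.one_apply]

/-- the set of elements `1, a_0, a_1, a_2` -/
def nuc : Set (Equiv.Perm (List (Fin 3))) := insert 1 (Set.range hanoi)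

/-- product of a list of generators -/
def wprod (l : List (Fin 3)) : Equiv.Perm (List (Fin 3)) := (l.map hanoi).prod

theorem exists_wprod {g : Equiv.Perm (List (Fin 3))} (hg : g ∈ HG) : ∃ l, g = wprod l := by
  induction hg using Subgroup.closure_induction with
  | mem x hx => obtain ⟨i, rfl⟩ := hx; exact ⟨[i], by simp [wprod]⟩
  | one => exact ⟨[], by simp [wprod]⟩
  | mul x y _ _ hx hy =>
    obtain ⟨l, rfl⟩ := hx
    obtain ⟨l', rfl⟩ := hy
    exact ⟨l ++ l', by simp [wprod]⟩
  | inv x _ hx =>
    obtain ⟨l, rfl⟩ := hx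
    refine ⟨l.reverse, ?_⟩
    unfold wprod
    rw [List.prod_inv_reverse]
    simp only [List.map_map, List.map_reverse]
    congr 2

theorem wprod_cons (i : Fin 3) (l : List (Fin 3)) : wprod (i :: l) = hanoi i * wprod l := by
  simp [wprod]

/-- sections of products of two generators are generators or trivial -/
theorem section_two (i j x : Fin 3) : ∃ y, ∃ h ∈ nuc, ∀ w,
    (hanoi i * hanoi j) (x :: w) = y :: h w := by
  by_cases hx : x = j
  · subst hx
    by_cases hxi : x = i
    · subst hxi
      exact ⟨x, 1, Or.inl rfl, fun w => by rw [hanoi_mul_self]; rfl⟩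
    · exact ⟨-(i + x), hanoi x, Or.inr ⟨x, rfl⟩, fun w => by
        rw [Equiv.Perm.mul_apply, hanoi_cons_self, hanoi_cons_ne hxi]⟩
  · by_cases h2 : -(j + x) = i
    · exact ⟨-(j + x), hanoi i, Or.inr ⟨i, rfl⟩, fun w => by
        rw [Equiv.Perm.mul_apply, hanoi_cons_ne hx, h2, hanoi_cons_self]⟩
    · exact ⟨-(i + -(j + x)), 1, Or.inl rfl, fun w => by
        rw [Equiv.Perm.mul_apply, hanoi_cons_ne hx, hanoi_cons_ne h2]; rfl⟩

theorem section_wprod : ∀ (n : ℕ) (l : List (Fin 3)), l.length ≤ n → ∀ x : Fin 3,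
    ∃ y, ∃ l' : List (Fin 3), 2 * l'.length ≤ l.length + 1 ∧
      ∀ w, wprod l (x :: w) = y :: wprod l' w := by
  intro n
  induction n using Nat.strong_induction_on with
  | _ n ih =>
    intro l hl x
    rcases l with _ | ⟨i, _ | ⟨j, l⟩⟩
    · exact ⟨x, [], by simp, fun w => rfl⟩
    · by_cases h : x = i
      · subst h
        exact ⟨x, [x], by simp, fun w => by
          simp only [wprod, List.map_cons, List.map_nil, List.prod_cons, List.prod_nil, mul_one]
          exact hanoi_cons_self x w⟩
      · exact ⟨-(i + x), [], by simp, fun w => by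
          simp only [wprod, List.map_cons, List.map_nil, List.prod_cons, List.prod_nil, mul_one]
          exact hanoi_cons_ne h w⟩
    · simp only [List.length_cons] at hl
      obtain ⟨y, l', hl', e⟩ := ih (n - 2) (by omega) l (by omega) x
      obtain ⟨z, h, hh, e2⟩ := section_two i j y
      rcases hh with rfl | ⟨k, rfl⟩
      · refine ⟨z, l', by simp only [List.length_cons]; omega, fun w => ?_⟩
        rw [wprod_cons, wprod_cons, ← mul_assoc, Equiv.Perm.mul_apply, e, e2]; rfl
      · refine ⟨z, k :: l', by simp only [List.length_cons]; omega, fun w => ?_⟩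
        rw [wprod_cons, wprod_cons, ← mul_assoc, Equiv.Perm.mul_apply, e, e2, wprod_cons,
          Equiv.Perm.mul_apply]

theorem HG_nil {g : Equiv.Perm (List (Fin 3))} (hg : g ∈ HG) : g [] = [] := HG_selfSimilar.1 g hg

theorem wprod_mem (l : List (Fin 3)) : wprod l ∈ HG := by
  induction l with
  | nil => simp [wprod, HG.one_mem]
  | cons i l ih => rw [wprod_cons]; exact HG.mul_mem (hanoi_mem i) ih

theorem section_long : ∀ (n : ℕ) (l : List (Fin 3)), l.length ≤ n + 1 → ∀ v : List (Fin 3),
    n ≤ v.length → ∃ l' : List (Fin 3), l'.length ≤ 1 ∧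
      ∀ w, wprod l (v ++ w) = wprod l v ++ wprod l' w := by
  intro n
  induction n with
  | zero =>
    intro l hl v _
    -- a word of length at most one
    induction v generalizing l with
    | nil => exact ⟨l, by simpa using hl, fun w => by rw [HG_nil (wprod_mem l)]; rfl⟩
    | cons x v ih =>
      obtain ⟨y, l', hl', e⟩ := section_wprod _ l le_rfl x
      obtain ⟨l'', hl'', e'⟩ := ih l' (by omega) (by simp)
      exact ⟨l'', hl'', fun w => by rw [List.cons_append, e, e', e, List.cons_append]⟩
  | succ n ih =>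
    intro l hl v hv
    rcases v with _ | ⟨x, v⟩
    · simp at hv
    · obtain ⟨y, l', hl', e⟩ := section_wprod _ l le_rfl x
      simp only [List.length_cons] at hv
      obtain ⟨l'', hl'', e'⟩ := ih l' (by omega) v (by omega)
      exact ⟨l'', hl'', fun w => by rw [List.cons_append, e, e', e, List.cons_append]⟩

theorem HG_contracting : IsContracting HG := by
  refine ⟨nuc, ?_, ?_, ?_⟩
  · exact (Set.finite_range hanoi).insert 1
  · rintro g (rfl | ⟨i, rfl⟩)
    · exact HG.one_mem
    · exact hanoi_mem i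
  · intro g hg
    obtain ⟨l, rfl⟩ := exists_wprod hg
    refine ⟨l.length, fun v hv => ?_⟩
    obtain ⟨l', hl', e⟩ := section_long l.length l (by omega) v hv
    refine ⟨wprod l', ?_, e⟩
    rcases l' with _ | ⟨i, _ | ⟨j, l'⟩⟩
    · left; rfl
    · right; exact ⟨i, by simp [wprod]⟩
    · simp at hl'

end Pool.Agent.Work.MP_9fe7bd_lc
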