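import Pool.Agent.Work.MP_9fe7bd_lc.Hanoi

namespace Pool.Agent.Work.MP_9fe7bd_lc

/-- infinite words -/
abbrev Om : Type := ℕ → Fin 3

/-- shift -/
def sh (ξ : Om) : Om := fun n => ξ (n + 1)

/-- add a first letter -/
def cn (x : Fin 3) (ξ : Om) : Om := fun n => Nat.casesOn n x ξ

@[simp] theorem cn_zero (x : Fin 3) (ξ : Om) : cn x ξ 0 = x := rfl
@[simp] theorem cn_succ (x : Fin 3) (ξ : Om) (n : ℕ) : cn x ξ (n + 1) = ξ n := rfl
@[simp] theorem sh_apply (ξ : Om) (n : ℕ) : sh ξ n = ξ (n + 1) := rfl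
@[simp] theorem sh_cn (x : Fin 3) (ξ : Om) : sh (cn x ξ) = ξ := rfl
theorem cn_sh (ξ : Om) : cn (ξ 0) (sh ξ) = ξ := by
  funext n; cases n <;> rfl

theorem cn_inj {x y : Fin 3} {ξ η : Om} : cn x ξ = cn y η ↔ x = y ∧ ξ = η := by
  constructor
  · intro h
    exact ⟨congrFun h 0, funext fun n => congrFun h (n + 1)⟩
  · rintro ⟨rfl, rfl⟩; rfl

open Classical in
/-- the action of the generators on infinite words -/
noncomputable def A (i : Fin 3) (ξ : Om) : Om := fun n =>
  if ∀ m < n, ξ m = i then -(i + ξ n) else ξ n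

theorem A_zero (i : Fin 3) (ξ : Om) : A i ξ 0 = -(i + ξ 0) := by
  simp [A]

theorem A_cn_self (i : Fin 3) (ξ : Om) : A i (cn i ξ) = cn i (A i ξ) := by
  funext n
  cases n with
  | zero => rw [A_zero]; exact third_self i
  | succ n =>
    simp only [A, cn_succ]
    have : (∀ m < n + 1, cn i ξ m = i) ↔ (∀ m < n, ξ m = i) := by
      constructor
      · intro h m hm
        exact h (m + 1) (by omega)
      · intro h m hm
        cases m with
        | zero => rfl
        | succ m => exact h m (by omega)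
    by_cases h : ∀ m < n, ξ m = i
    · rw [if_pos h, if_pos (this.2 h)]
    · rw [if_neg h, if_neg (fun h' => h (this.1 h'))]

theorem A_cn_ne {i x : Fin 3} (h : x ≠ i) (ξ : Om) : A i (cn x ξ) = cn (-(i + x)) ξ := by
  funext n
  cases n with
  | zero => simp [A_zero]
  | succ n =>
    simp only [A, cn_succ]
    rw [if_neg]
    intro h'
    exact h (h' 0 (by omega))

theorem pre_succ (ξ : Om) (n : ℕ) : pre ξ (n + 1) = ξ 0 :: pre (sh ξ) n := by
  unfold pre
  rw [List.range_succ_eq_map]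
  simp [Function.comp_def, sh]

theorem pre_zero (ξ : Om) : pre ξ 0 = [] := rfl

theorem pre_cn (x : Fin 3) (ξ : Om) (n : ℕ) : pre (cn x ξ) (n + 1) = x :: pre ξ n := by
  rw [pre_succ]; rfl

theorem pre_length (ξ : Om) (n : ℕ) : (pre ξ n).length = n := by simp [pre]

theorem pre_inj {ξ η : Om} (h : ∀ n, pre ξ n = pre η n) : ξ = η := by
  funext n
  have h1 := h (n + 1)
  unfold pre at h1
  rw [List.range_succ, List.map_append, List.map_append] at h1
  have := List.append_inj_right h1 (by simp)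
  simpa using this

theorem maps_hanoi (i : Fin 3) (ξ : Om) : Maps (hanoi i) ξ (A i ξ) := by
  intro n
  induction n generalizing ξ with
  | zero => rfl
  | succ n ih =>
    rw [← cn_sh ξ, pre_cn]
    by_cases h : ξ 0 = i
    · rw [h, hanoi_cons_self, ih, A_cn_self, pre_cn]
    · rw [hanoi_cons_ne h, A_cn_ne h, pre_cn]

theorem Maps.unique {g : Equiv.Perm (List (Fin 3))} {ξ η η' : Om} (h : Maps g ξ η)
    (h' : Maps g ξ η') : η = η' := pre_inj fun n => (h n).symm.trans (h' n)

theorem maps_hanoi_iff (i : Fin 3) (ξ η : Om) : Maps (hanoi i) ξ η ↔ η = A i ξ :=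
  ⟨fun h => h.unique (maps_hanoi i ξ), fun h => h ▸ maps_hanoi i ξ⟩

theorem Maps.mul {g h : Equiv.Perm (List (Fin 3))} {ξ η ζ : Om} (h1 : Maps h ξ η)
    (h2 : Maps g η ζ) : Maps (g * h) ξ ζ := fun n => by
  rw [Equiv.Perm.mul_apply, h1, h2]

theorem maps_one (ξ : Om) : Maps (1 : Equiv.Perm (List (Fin 3))) ξ ξ := fun _ => rfl

theorem Maps.inv {g : Equiv.Perm (List (Fin 3))} {ξ η : Om} (h : Maps g ξ η) :
    Maps g⁻¹ η ξ := fun n => by
  rw [Equiv.Perm.inv_eq_iff_eq, h]

theorem A_invol (i : Fin 3) (ξ : Om) : A i (A i ξ) = ξ := by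
  have h := (maps_hanoi i ξ).mul (maps_hanoi i (A i ξ))
  rw [hanoi_mul_self] at h
  exact h.unique (maps_one ξ)

/-- cofinal words -/
def Cof (ξ η : Om) : Prop := ∃ N, ∀ n, N ≤ n → ξ n = η n

theorem Cof.refl (ξ : Om) : Cof ξ ξ := ⟨0, fun _ _ => rfl⟩
theorem Cof.symm {ξ η : Om} (h : Cof ξ η) : Cof η ξ := by
  obtain ⟨N, h⟩ := h; exact ⟨N, fun n hn => (h n hn).symm⟩
theorem Cof.trans {ξ η ζ : Om} (h : Cof ξ η) (h' : Cof η ζ) : Cof ξ ζ := by
  obtain ⟨N, h⟩ := h
  obtain ⟨N', h'⟩ := h'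
  exact ⟨max N N', fun n hn => (h n (by omega)).trans (h' n (by omega))⟩

/-- if `ξ` is not constant `i`, and `p` is the first position of a letter different from `i`,
then `A i ξ` is obtained by changing that letter -/
theorem A_apply_of_lt {i : Fin 3} {ξ : Om} {p n : ℕ} (hp : ξ p ≠ i) (hn : p < n) :
    A i ξ n = ξ n := by
  unfold A
  rw [if_neg]
  intro h
  exact hp (h p hn)

theorem A_const {i : Fin 3} {ξ : Om} (h : ∀ n, ξ n = i) : A i ξ = ξ := by
  funext n
  unfold A
  rw [if_pos (fun m _ => h m), h n, third_self]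

theorem cof_A (i : Fin 3) (ξ : Om) : Cof ξ (A i ξ) := by
  by_cases h : ∀ n, ξ n = i
  · rw [A_const h]; exact Cof.refl ξ
  · push Not at h
    obtain ⟨p, hp⟩ := h
    exact ⟨p + 1, fun n hn => (A_apply_of_lt hp (by omega)).symm⟩

theorem lift_mem {g : Equiv.Perm (List (Fin 3))} (hg : g ∈ HG) :
    ∃ h ∈ HG, ∀ w, h (0 :: w) = 0 :: g w := by
  induction hg using Subgroup.closure_induction with
  | mem x hx =>
    obtain ⟨i, rfl⟩ := hx
    by_cases h : i = 0
    · subst h
      exact ⟨hanoi 0, hanoi_mem 0, fun w => hanoi_cons_self 0 w⟩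
    · have hk : (0 : Fin 3) ≠ -(0 + i) := by revert h; revert i; decide
      have hk2 : i ≠ -(0 + i) := by revert h; revert i; decide
      have e1 : -(-(0 + i) + 0) = i := by revert i; decide
      have e2 : -(-(0 + i) + i) = 0 := by revert h; revert i; decide
      refine ⟨hanoi (-(0 + i)) * hanoi i * hanoi (-(0 + i)),
        HG.mul_mem (HG.mul_mem (hanoi_mem _) (hanoi_mem _)) (hanoi_mem _), fun w => ?_⟩
      rw [Equiv.Perm.mul_apply, Equiv.Perm.mul_apply, hanoi_cons_ne hk, e1, hanoi_cons_self,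
        hanoi_cons_ne hk2, e2]
  | one => exact ⟨1, HG.one_mem, fun w => rfl⟩
  | mul x y _ _ hx hy =>
    obtain ⟨h, hh, e⟩ := hx
    obtain ⟨h', hh', e'⟩ := hy
    exact ⟨h * h', HG.mul_mem hh hh', fun w => by
      rw [Equiv.Perm.mul_apply, e', e, Equiv.Perm.mul_apply]⟩
  | inv x _ hx =>
    obtain ⟨h, hh, e⟩ := hx
    exact ⟨h⁻¹, HG.inv_mem hh, fun w => by
      rw [Equiv.Perm.inv_eq_iff_eq, e, ← Equiv.Perm.mul_apply, mul_inv_cancel,
        Equiv.Perm.one_apply]⟩

theorem exists_first (x y : Fin 3) : ∃ g ∈ HG, ∀ w, g (x :: w) = y :: w := by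
  by_cases h : x = y
  · subst h; exact ⟨1, HG.one_mem, fun w => rfl⟩
  · have h1 : x ≠ -(x + y) := by revert h; revert x y; decide
    have h2 : -(-(x + y) + x) = y := by revert x y; decide
    exact ⟨hanoi (-(x + y)), hanoi_mem _, fun w => by rw [hanoi_cons_ne h1, h2]⟩

theorem trans_level : ∀ (u v : List (Fin 3)), u.length = v.length →
    ∃ g ∈ HG, ∀ w, g (u ++ w) = v ++ w := by
  intro u
  induction u with
  | nil =>
    intro v hv
    have : v = [] := List.eq_nil_of_length_eq_zero hv.symm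
    subst this
    exact ⟨1, HG.one_mem, fun w => rfl⟩
  | cons x u ih =>
    intro v hv
    rcases v with _ | ⟨y, v⟩
    · simp at hv
    · obtain ⟨g, hg, e⟩ := ih v (by simpa using hv)
      obtain ⟨h, hh, e'⟩ := lift_mem hg
      obtain ⟨a, ha, ea⟩ := exists_first x 0
      obtain ⟨b, hb, eb⟩ := exists_first 0 y
      refine ⟨b * h * a, HG.mul_mem (HG.mul_mem hb hh) ha, fun w => ?_⟩
      rw [Equiv.Perm.mul_apply, Equiv.Perm.mul_apply, List.cons_append, ea, e', e, eb,
        List.cons_append]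

theorem pre_add (ξ : Om) (m n : ℕ) : pre ξ (m + n) = pre ξ m ++ pre (fun k => ξ (m + k)) n := by
  unfold pre
  rw [List.range_add, List.map_append, List.map_map]
  rfl

theorem orb_iff (ξ η : Om) : (∃ g ∈ HG, Maps g ξ η) ↔ Cof ξ η := by
  constructor
  · rintro ⟨g, hg, h⟩
    obtain ⟨l, rfl⟩ := exists_wprod hg
    induction l generalizing η with
    | nil => rw [h.unique (maps_one ξ)]; exact Cof.refl ξ
    | cons i l ih =>
      -- `wprod l` maps `ξ` to `A i η`
      have h1 : Maps (wprod l) ξ (A i η) := by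
        have h2 := h.mul (maps_hanoi i η)
        rw [wprod_cons, ← mul_assoc, hanoi_mul_self, one_mul] at h2
        exact h2
      exact (ih (A i η) (wprod_mem l) h1).trans (cof_A i η).symm
  · rintro ⟨N, h⟩
    obtain ⟨g, hg, e⟩ := trans_level (pre ξ N) (pre η N) (by rw [pre_length, pre_length])
    refine ⟨g, hg, fun n => ?_⟩
    rcases le_total N n with hn | hn
    · obtain ⟨k, rfl⟩ := Nat.exists_eq_add_of_le hn
      rw [pre_add, e, pre_add]
      congr 1
      unfold pre
      apply List.map_congr_left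
      intro m _
      exact h (N + m) (by omega)
    · -- `g` preserves initial segments
      obtain ⟨k, rfl⟩ := Nat.exists_eq_add_of_le hn
      have hpres : ∀ (v : List (Fin 3)), ∀ g ∈ HG, (g v).length = v.length ∧
          ∃ h ∈ HG, ∀ w, g (v ++ w) = g v ++ h w := by
        intro v
        induction v with
        | nil => exact fun g hg => ⟨by rw [HG_nil hg], g, hg, fun w => by rw [HG_nil hg]; rfl⟩
        | cons x v ih =>
          intro g hg
          obtain ⟨y, h, hh, e⟩ := HG_selfSimilar.2 g hg x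
          obtain ⟨hl, k, hk, e'⟩ := ih h hh
          exact ⟨by rw [e]; simp [hl], k, hk, fun w => by
            rw [List.cons_append, e, e', e, List.cons_append]⟩
      obtain ⟨hl, h', _, e'⟩ := hpres (pre ξ n) g hg
      have h3 := e []
      rw [List.append_nil, List.append_nil, pre_add, e', pre_add] at h3
      exact List.append_inj_left h3 (by rw [hl, pre_length, pre_length])

theorem A_ne_self {i : Fin 3} {ξ : Om} {p : ℕ} (hp : ξ p ≠ i) : A i ξ ≠ ξ := by
  classical
  intro h
  have hex : ∃ p, ξ p ≠ i := ⟨p, hp⟩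
  have h1 := Nat.find_spec hex
  have h2 : ∀ m < Nat.find hex, ξ m = i := fun m hm => not_not.1 (Nat.find_min hex hm)
  have h3 := congrFun h (Nat.find hex)
  unfold A at h3
  rw [if_pos h2] at h3
  exact third_ne _ _ h1 h3

end Pool.Agent.Work.MP_9fe7bd_lc
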