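import Pool.Agent.Work.MP_9fe7bd_lc.Omega

namespace Pool.Agent.Work.MP_9fe7bd_lc

theorem fin3_third : ∀ i j k x : Fin 3, i ≠ j → i ≠ k → j ≠ k → x ≠ k → x = i ∨ x = j := by
  decide

/-- closed under two generators implies invariant under the third -/
theorem two_closed (i j k : Fin 3) (hij : i ≠ j) (hik : i ≠ k) (hjk : j ≠ k) :
    ∀ (n : ℕ) (Z : Set Om), (∀ η ∈ Z, A i η ∈ Z) → (∀ η ∈ Z, A j η ∈ Z) →
      ∀ η : Om, η n ≠ k → (∀ m < n, η m = k) → η ∈ Z → A k η ∈ Z := by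
  have e1 : -(k + i) = j := by revert i j k; decide
  have e2 : -(k + j) = i := by revert i j k; decide
  have e3 : -(i + j) = k := by revert i j k; decide
  have e4 : -(j + i) = k := by revert i j k; decide
  have e5 : -(j + k) = i := by revert i j k; decide
  have e6 : -(i + k) = j := by revert i j k; decide
  intro n
  induction n with
  | zero =>
    intro Z hi hj η h0 _ hη
    rw [← cn_sh η] at hη ⊢
    have h1 : η 0 = i ∨ η 0 = j := fin3_third i j k _ hij hik hjk h0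
    rcases h1 with h1 | h1
    · rw [h1] at hη ⊢
      rw [A_cn_ne hik, e1]
      have h2 := hj _ hη
      rw [A_cn_ne hij, e4] at h2
      have h3 := hi _ h2
      rwa [A_cn_ne hik.symm, e6] at h3
    · rw [h1] at hη ⊢
      rw [A_cn_ne hjk, e2]
      have h2 := hi _ hη
      rw [A_cn_ne hij.symm, e3] at h2
      have h3 := hj _ h2
      rwa [A_cn_ne hjk.symm, e5] at h3
  | succ n ih =>
    intro Z hi hj η hn hm hη
    rw [← cn_sh η, hm 0 (by omega)] at hη ⊢
    rw [A_cn_self]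
    refine ih {w | cn k w ∈ Z} ?_ ?_ (sh η) hn (fun m hm' => hm (m + 1) (by omega)) hη
    · intro w hw
      have h1 := hj _ hw
      rw [A_cn_ne hjk.symm, e5] at h1
      have h2 := hi _ h1
      rw [A_cn_self] at h2
      have h3 := hj _ h2
      rwa [A_cn_ne hij, e4] at h3
    · intro w hw
      have h1 := hi _ hw
      rw [A_cn_ne hik.symm, e6] at h1
      have h2 := hj _ h1
      rw [A_cn_self] at h2
      have h3 := hi _ h2
      rwa [A_cn_ne hij.symm, e3] at h3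

/-- `ξ` is not eventually constant -/
def NonSing (ξ : Om) : Prop := ∀ i N, ∃ n, N ≤ n ∧ ξ n ≠ i

theorem NonSing.cof {ξ η : Om} (h : NonSing ξ) (c : Cof ξ η) : NonSing η := by
  intro i N
  obtain ⟨M, hM⟩ := c
  obtain ⟨n, hn, hn'⟩ := h i (max M N)
  exact ⟨n, by omega, by rw [← hM n (by omega)]; exact hn'⟩

theorem NonSing.sh {ξ : Om} (h : NonSing ξ) : NonSing (sh ξ) := by
  intro i N
  obtain ⟨n, hn, hn'⟩ := h i (N + 1)
  exact ⟨n - 1, by omega, by
    rw [sh_apply]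
    have : n - 1 + 1 = n := by omega
    rwa [this]⟩

theorem NonSing.first {ξ : Om} (h : NonSing ξ) (i : Fin 3) :
    ∃ n, ξ n ≠ i ∧ ∀ m < n, ξ m = i := by
  classical
  have hex : ∃ p, ξ p ≠ i := by
    obtain ⟨n, _, hn⟩ := h i 0
    exact ⟨n, hn⟩
  exact ⟨Nat.find hex, Nat.find_spec hex, fun m hm => not_not.1 (Nat.find_min hex hm)⟩

theorem NonSing.ne {ξ : Om} (h : NonSing ξ) (i : Fin 3) : A i ξ ≠ ξ := by
  obtain ⟨n, _, hn⟩ := h i 0
  exact A_ne_self hn

theorem closed_all {Z : Set Om} (h : ∀ i, ∀ η ∈ Z, A i η ∈ Z) {η ζ : Om} (hη : η ∈ Z)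
    (c : Cof η ζ) : ζ ∈ Z := by
  obtain ⟨g, hg, hm⟩ := (orb_iff η ζ).2 c
  obtain ⟨l, rfl⟩ := exists_wprod hg
  clear hg
  induction l generalizing ζ with
  | nil => rwa [hm.unique (maps_one η)]
  | cons i l ih =>
    have h1 : Maps (wprod l) η (A i ζ) := by
      have h2 := hm.mul (maps_hanoi i ζ)
      rw [wprod_cons, ← mul_assoc, hanoi_mul_self, one_mul] at h2
      exact h2
    have h3 := h i _ (ih (c.trans (cof_A i ζ)) h1)
    rwa [A_invol] at h3

/-- the tile of level `n` of `η` -/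
def T (n : ℕ) (η : Om) : Set Om := {ζ | ∀ m, n ≤ m → ζ m = η m}

theorem mem_T {n : ℕ} {η ζ : Om} : ζ ∈ T n η ↔ ∀ m, n ≤ m → ζ m = η m := Iff.rfl

theorem self_mem_T (n : ℕ) (η : Om) : η ∈ T n η := fun _ _ => rfl

theorem T_zero (η : Om) : T 0 η = {η} := by
  ext ζ
  simp only [mem_T, Set.mem_singleton_iff]
  exact ⟨fun h => funext fun n => h n (by omega), fun h _ _ => by rw [h]⟩

theorem T_eq_of_mem {n : ℕ} {η ζ : Om} (h : ζ ∈ T n η) : T n ζ = T n η := by
  ext χ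
  constructor
  · intro hχ m hm; rw [hχ m hm, h m hm]
  · intro hχ m hm; rw [hχ m hm, h m hm]

theorem T_mono {n m : ℕ} (h : n ≤ m) (η : Om) : T n η ⊆ T m η :=
  fun _ hζ k hk => hζ k (by omega)

theorem cof_of_mem_T {n : ℕ} {η ζ : Om} (h : ζ ∈ T n η) : Cof η ζ :=
  ⟨n, fun m hm => (h m hm).symm⟩

/-- the class of cofinal words -/
def Cl (ξ : Om) : Set Om := {η | Cof ξ η}

theorem A_mem_Cl {ξ η : Om} (i : Fin 3) (h : η ∈ Cl ξ) : A i η ∈ Cl ξ := Cof.trans h (cof_A i η)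

/-- `x` is the only vertex of `W` at which the edge labelled `i` leaves `W` -/
def Cross (W : Set Om) (i : Fin 3) (x : Om) : Prop :=
  x ∈ W ∧ A i x ∉ W ∧ ∀ y ∈ W, A i y ∉ W → y = x

/-- each label crosses exactly once -/
def TT (ξ : Om) (W : Set Om) : Prop := W ⊆ Cl ξ ∧ ∀ i, ∃ x, Cross W i x

theorem Cross.compl {ξ : Om} {W : Set Om} (hW : W ⊆ Cl ξ) {i : Fin 3} {x : Om}
    (h : Cross W i x) : Cross (Cl ξ \ W) i (A i x) := by
  obtain ⟨h1, h2, h3⟩ := h
  refine ⟨⟨A_mem_Cl i (hW h1), h2⟩, ?_, ?_⟩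
  · rw [A_invol]; exact fun h => h.2 h1
  · rintro y ⟨hy, hy'⟩ hA
    have h4 : A i y ∈ W := by
      by_contra h5
      exact hA ⟨A_mem_Cl i hy, h5⟩
    have h6 := h3 (A i y) h4 (by rwa [A_invol])
    rw [← h6, A_invol]

theorem TT.compl {ξ : Om} {W : Set Om} (h : TT ξ W) : TT ξ (Cl ξ \ W) :=
  ⟨Set.sdiff_subset, fun i => by
    obtain ⟨x, hx⟩ := h.2 i
    exact ⟨_, hx.compl h.1⟩⟩

/-- If two of the labels cross at `x ∈ W`, then `W = {x}`. -/
theorem single {ξ : Om} (hξ : NonSing ξ) {W : Set Om} (h : TT ξ W) {x : Om} (hx : x ∈ W)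
    {i j : Fin 3} (hij : i ≠ j) (hi : A i x ∉ W) (hj : A j x ∉ W) : W = {x} := by
  obtain ⟨hW, hc⟩ := h
  obtain ⟨k, hik, hjk⟩ : ∃ k : Fin 3, i ≠ k ∧ j ≠ k := by
    clear hi hj
    revert i j
    decide
  have hui : ∀ y ∈ W, y ≠ x → A i y ∈ W := by
    intro y hy hne
    by_contra h
    obtain ⟨z, hz⟩ := hc i
    exact hne ((hz.2.2 y hy h).trans (hz.2.2 x hx hi).symm)
  have huj : ∀ y ∈ W, y ≠ x → A j y ∈ W := by
    intro y hy hne
    by_contra h
    obtain ⟨z, hz⟩ := hc j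
    exact hne ((hz.2.2 y hy h).trans (hz.2.2 x hx hj).symm)
  have hi' : ∀ y ∈ W \ {x}, A i y ∈ W \ {x} := by
    rintro y ⟨hy, hne⟩
    refine ⟨hui y hy hne, fun he => ?_⟩
    rw [Set.mem_singleton_iff] at he
    apply hi
    rw [← he, A_invol]; exact hy
  have hj' : ∀ y ∈ W \ {x}, A j y ∈ W \ {x} := by
    rintro y ⟨hy, hne⟩
    refine ⟨huj y hy hne, fun he => ?_⟩
    rw [Set.mem_singleton_iff] at he
    apply hj
    rw [← he, A_invol]; exact hy
  have hk' : ∀ y ∈ W \ {x}, A k y ∈ W \ {x} := by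
    rintro y hy
    obtain ⟨n, hn, hn'⟩ := (hξ.cof (hW hy.1)).first k
    exact two_closed i j k hij hik hjk n _ hi' hj' y hn hn' hy
  have hall : ∀ l, ∀ y ∈ W \ {x}, A l y ∈ W \ {x} := by
    intro l
    have : l = i ∨ l = j ∨ l = k := by
      clear hi hj hui huj hi' hj' hk'
      revert i j k l
      decide
    rcases this with rfl | rfl | rfl <;> assumption
  apply Set.eq_singleton_iff_unique_mem.2 ⟨hx, fun y hy => ?_⟩
  by_contra hne
  have : A i x ∈ W \ {x} :=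
    closed_all hall (⟨hy, hne⟩ : y ∈ W \ {x})
      (((hW hy : Cof ξ y).symm.trans (hW hx)).trans (cof_A i x))
  exact hi this.1

theorem T_succ_cn (n : ℕ) (x : Fin 3) (η : Om) :
    T (n + 1) (cn x η) = {ζ | sh ζ ∈ T n η} := by
  ext ζ
  constructor
  · intro h m hm
    exact h (m + 1) (by omega)
  · intro h m hm
    cases m with
    | zero => omega
    | succ m => exact h m (by omega)

theorem cof_cn {ξ η : Om} {x : Fin 3} : Cof ξ (cn x η) ↔ Cof (sh ξ) η := by
  constructor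
  · rintro ⟨N, h⟩
    exact ⟨N, fun n hn => h (n + 1) (by omega)⟩
  · rintro ⟨N, h⟩
    exact ⟨N + 1, fun n hn => by
      cases n with
      | zero => omega
      | succ n => exact h n (by omega)⟩

/-- the rigidity lemma -/
theorem rigid : ∀ (L : ℕ) (ξ : Om), NonSing ξ → ∀ (W : Set Om), TT ξ W →
    ∀ x, Cross W 0 x → x L ≠ 0 → (∀ m < L, x m = 0) →
      ∃ n, ∃ η ∈ Cl ξ, W = T n η ∨ W = Cl ξ \ T n η := by
  have split : ∀ (ξ : Om), NonSing ξ → ∀ (W : Set Om), TT ξ W → ∀ (w : Om) (i j : Fin 3),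
      cn i w ∈ W → cn j w ∉ W → cn i w ∈ Cl ξ →
      ∃ n, ∃ η ∈ Cl ξ, W = T n η ∨ W = Cl ξ \ T n η := by
    intro ξ hξ W hW w i j hi hj hcl
    have hij : i ≠ j := by rintro rfl; exact hj hi
    obtain ⟨k, hik, hjk⟩ : ∃ k : Fin 3, i ≠ k ∧ j ≠ k := by
      clear hi hj hcl
      revert i j
      decide
    have e3 : -(k + i) = j := by clear hi hj hcl; revert i j k; decide
    have e4 : -(j + i) = k := by clear hi hj hcl; revert i j k; decide
    have e5 : -(k + j) = i := by clear hi hj hcl; revert i j k; decide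
    have e6 : -(i + j) = k := by clear hi hj hcl; revert i j k; decide
    have hj' : cn j w ∈ Cl ξ := cof_cn.2 (cof_cn.1 hcl)
    have hk' : cn k w ∈ Cl ξ := cof_cn.2 (cof_cn.1 hcl)
    by_cases hk : cn k w ∈ W
    · -- the word `j w` is isolated
      refine ⟨0, cn j w, hj', Or.inr ?_⟩
      have h1 := single hξ hW.compl (x := cn j w) ⟨hj', hj⟩ (i := k) (j := i) hik.symm
        (by rw [A_cn_ne hjk, e5]; exact fun h => h.2 hi)
        (by rw [A_cn_ne hij.symm, e6]; exact fun h => h.2 hk)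
      rw [T_zero, ← h1, Set.sdiff_sdiff_cancel_left hW.1]
    · refine ⟨0, cn i w, hcl, Or.inl ?_⟩
      rw [T_zero]
      exact single hξ hW hi (i := k) (j := j) hjk.symm
        (by rw [A_cn_ne hik, e3]; exact hj)
        (by rw [A_cn_ne hij, e4]; exact hk)
  intro L
  induction L with
  | zero =>
    intro ξ hξ W hW x hx hxL _
    have h1 := hx.1
    have h2 := hx.2.1
    rw [← cn_sh x] at h1 h2
    rw [A_cn_ne hxL] at h2
    exact split ξ hξ W hW (sh x) _ _ h1 h2 (hW.1 h1)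
  | succ L ih =>
    intro ξ hξ W hW x hx hxL hm
    by_cases hs : ∃ w i j, cn i w ∈ W ∧ cn j w ∉ W
    · obtain ⟨w, i, j, h1, h2⟩ := hs
      exact split ξ hξ W hW w i j h1 h2 (hW.1 h1)
    · push Not at hs
      -- `W` is a union of triangles
      have hs' : ∀ w i j, cn i w ∈ W ↔ cn j w ∈ W := fun w i j => ⟨hs w i j, hs w j i⟩
      have hmem : ∀ ζ, ζ ∈ W ↔ sh ζ ∈ {w | cn 0 w ∈ W} := by
        intro ζ
        conv_lhs => rw [← cn_sh ζ]
        exact hs' _ _ _
      have hcr : ∀ i y, Cross W i y → y 0 = i ∧ Cross {w | cn 0 w ∈ W} i (sh y) := by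
        intro i y hy
        have hy0 : y 0 = i := by
          by_contra hne
          apply hy.2.1
          rw [← cn_sh y, A_cn_ne hne, hs' _ _ (y 0), cn_sh]
          exact hy.1
        refine ⟨hy0, (hmem y).1 hy.1, ?_, ?_⟩
        · have h := hy.2.1
          rw [← cn_sh y, hy0, A_cn_self, hs' _ _ 0] at h
          exact h
        · intro z hz hz'
          have h := hy.2.2 (cn i z) ((hs' z i 0).2 hz) (by
            rw [A_cn_self, hs' _ _ 0]; exact hz')
          rw [← h, sh_cn]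
      have hW' : TT (sh ξ) {w | cn 0 w ∈ W} := by
        refine ⟨fun w hw => cof_cn.1 (hW.1 hw), fun i => ?_⟩
        obtain ⟨y, hy⟩ := hW.2 i
        exact ⟨sh y, (hcr i y hy).2⟩
      obtain ⟨n, η, hη, h⟩ := ih (sh ξ) hξ.sh _ hW' (sh x) (hcr 0 x hx).2 hxL
        (fun m hm' => hm (m + 1) (by omega))
      refine ⟨n + 1, cn 0 η, cof_cn.2 hη, ?_⟩
      rw [T_succ_cn]
      rcases h with h | h
      · left
        ext ζ
        rw [hmem, h]; rfl
      · right
        ext ζ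
        rw [hmem, h]
        constructor
        · rintro ⟨h1, h2⟩
          refine ⟨?_, h2⟩
          rw [← cn_sh ζ]; exact cof_cn.2 h1
        · rintro ⟨h1, h2⟩
          refine ⟨?_, h2⟩
          rw [← cn_sh ζ] at h1; exact cof_cn.1 h1

theorem TT.tile_or {ξ : Om} (hξ : NonSing ξ) {W : Set Om} (h : TT ξ W) :
    ∃ n, ∃ η ∈ Cl ξ, W = T n η ∨ W = Cl ξ \ T n η := by
  obtain ⟨x, hx⟩ := h.2 0
  obtain ⟨L, h1, h2⟩ := (hξ.cof (h.1 hx.1)).first 0
  exact rigid L ξ hξ W h x hx h1 h2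

end Pool.Agent.Work.MP_9fe7bd_lc
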