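import Pool.Agent.Work.MP_9fe7bd_lc.Tiles

namespace Pool.Agent.Work.MP_9fe7bd_lc

/-- the corner of type `i` of the tile of level `n` of `η` -/
def corner (i : Fin 3) (n : ℕ) (η : Om) : Om := fun p => if p < n then i else η p

theorem corner_mem (i : Fin 3) (n : ℕ) (η : Om) : corner i n η ∈ T n η := by
  intro m hm
  unfold corner
  rw [if_neg (by omega)]

theorem A_corner_not_mem {i : Fin 3} {n : ℕ} {η : Om} (h : NonSing η) :
    A i (corner i n η) ∉ T n η := by
  obtain ⟨p, hp, hp'⟩ := (h.cof (cof_of_mem_T (corner_mem i n η))).first i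
  intro hmem
  have hpn : n ≤ p := by
    by_contra hlt
    apply hp
    unfold corner
    rw [if_pos (by omega)]
  have h1 := hmem p hpn
  unfold A at h1
  rw [if_pos hp'] at h1
  have h2 : corner i n η p = η p := by
    unfold corner
    rw [if_neg (by omega)]
  rw [← h2] at h1
  exact third_ne _ _ hp h1

/-- if `y ∈ T n η` has a letter different from `i` before position `n`, then `A i y ∈ T n η` -/
theorem A_mem_T {i : Fin 3} {n : ℕ} {η y : Om} (hy : y ∈ T n η) {p : ℕ} (hp : p < n)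
    (hp' : y p ≠ i) : A i y ∈ T n η := by
  intro m hm
  rw [A_apply_of_lt hp' (by omega), hy m hm]

theorem cross_T {n : ℕ} {η : Om} (h : NonSing η) (i : Fin 3) :
    Cross (T n η) i (corner i n η) := by
  refine ⟨corner_mem i n η, A_corner_not_mem h, fun y hy hA => ?_⟩
  funext p
  unfold corner
  split_ifs with hp
  · by_contra hne
    exact hA (A_mem_T hy hp hne)
  · exact hy p (by omega)

theorem TT_T {ξ : Om} (hξ : NonSing ξ) {n : ℕ} {η : Om} (hη : η ∈ Cl ξ) : TT ξ (T n η) :=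
  ⟨fun _ hζ => Cof.trans hη (cof_of_mem_T hζ), fun i => ⟨_, cross_T (hξ.cof hη) i⟩⟩

/-- a partition into pieces with the `i`-th piece closed under `A i` -/
def PM (W : Set Om) : Prop :=
  ∃ M : Fin 3 → Set Om, (∀ x, x ∈ W ↔ ∃ i, x ∈ M i) ∧
    (∀ i j x, x ∈ M i → x ∈ M j → i = j) ∧ ∀ i, ∀ x ∈ M i, A i x ∈ M i

/-- the tile of level `n` is in bijection with the words of length `n` -/
def tileEquiv (n : ℕ) (η : Om) : T n η ≃ (Fin n → Fin 3) where
  toFun ζ := fun i => ζ.1 i
  invFun f := ⟨fun m => if h : m < n then f ⟨m, h⟩ else η m, fun m hm => by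
    simp only [dif_neg (by omega : ¬ m < n)]⟩
  left_inv ζ := by
    apply Subtype.ext
    funext m
    by_cases h : m < n
    · simp only [dif_pos h]
    · simp only [dif_neg h]
      exact (ζ.2 m (by omega)).symm
  right_inv f := by
    funext i
    simp only [dif_pos i.2]

theorem not_PM_T {n : ℕ} {η : Om} (h : NonSing η) : ¬ PM (T n η) := by
  classical
  rintro ⟨M, h1, h2, h3⟩
  have : Fintype (T n η) := Fintype.ofEquiv _ (tileEquiv n η).symm
  have hcard : Fintype.card (T n η) = 3 ^ n := by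
    rw [Fintype.card_congr (tileEquiv n η)]
    simp
  have hc : ∀ x : T n η, ∃ i, x.1 ∈ M i := fun x => (h1 x.1).1 x.2
  choose c hc using hc
  have hsum : ∑ x : T n η, (1 : ZMod 2) = 0 := by
    refine Finset.sum_involution (fun x _ => ⟨A (c x) x.1, (h1 _).2 ⟨c x, h3 _ _ (hc x)⟩⟩)
      ?_ ?_ ?_ ?_
    · intro a _; decide
    · intro a _ _ he
      have := congrArg Subtype.val he
      exact (h.cof (cof_of_mem_T a.2)).ne _ this
    · intro a _; exact Finset.mem_univ _
    · intro a _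
      apply Subtype.ext
      have he : c ⟨A (c a) a.1, (h1 _).2 ⟨c a, h3 _ _ (hc a)⟩⟩ = c a :=
        h2 _ _ _ (hc _) (h3 _ _ (hc a))
      show A (c ⟨A (c a) a.1, _⟩) (A (c a) a.1) = a.1
      rw [he, A_invol]
  rw [Finset.sum_const, Finset.card_univ, hcard, nsmul_eq_mul, mul_one] at hsum
  have h5 : ((3 : ℕ) : ZMod 2) = 1 := by decide
  rw [Nat.cast_pow, h5, one_pow] at hsum
  exact one_ne_zero hsum

theorem PM_compl {ξ : Om} {n : ℕ} {η : Om} (hη : η ∈ Cl ξ) : PM (Cl ξ \ T n η) := by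
  refine ⟨fun i => {ζ | ζ ∈ Cl ξ ∧ ∃ m, n ≤ m ∧ ζ m ≠ η m ∧ η m = i ∧ ∀ k, m < k → ζ k = η k},
    ?_, ?_, ?_⟩
  · intro x
    constructor
    · rintro ⟨hx, hx'⟩
      obtain ⟨N, hN⟩ := (Cof.symm hη).trans hx
      have hex : ∃ m, n ≤ m ∧ x m ≠ η m := by
        by_contra hc
        push Not at hc
        exact hx' hc
      obtain ⟨m, hm, hm'⟩ := hex
      -- the last position of difference
      have hlast : ∃ m, n ≤ m ∧ x m ≠ η m ∧ ∀ k, m < k → x k = η k := by
        classical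
        have hfin : {m | x m ≠ η m}.Finite := by
          apply (Set.finite_lt_nat N).subset
          intro k hk
          by_contra hge
          exact hk (hN k (by simpa using hge)).symm
        have hne : hfin.toFinset.Nonempty := ⟨m, by simpa using hm'⟩
        refine ⟨hfin.toFinset.max' hne, ?_, ?_, ?_⟩
        · exact le_trans hm (Finset.le_max' _ _ (by simpa using hm'))
        · simpa using Finset.max'_mem _ hne
        · intro k hk
          by_contra hne'
          have := Finset.le_max' hfin.toFinset k (by simpa using hne')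
          omega
      obtain ⟨m, h1, h2, h3⟩ := hlast
      exact ⟨η m, hx, m, h1, h2, rfl, h3⟩
    · rintro ⟨i, hx, m, h1, h2, _, _⟩
      exact ⟨hx, fun hT => h2 (hT m h1)⟩
  · rintro i j x ⟨_, m, _, h1, h2, h3⟩ ⟨_, m', _, h1', h2', h3'⟩
    have : m = m' := by
      rcases lt_trichotomy m m' with h | h | h
      · exact absurd (h3 _ h) h1'
      · exact h
      · exact absurd (h3' _ h) h1
    subst this
    exact h2.symm.trans h2'
  · rintro i x ⟨hx, m, h1, h2, h3, h4⟩
    refine ⟨A_mem_Cl i hx, m, h1, ?_, h3, ?_⟩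
    · rw [h3] at h2
      by_cases hall : ∀ k < m, x k = i
      · unfold A
        rw [if_pos hall, h3, Ne, third_eq_iff]
        exact h2
      · unfold A
        rw [if_neg hall, h3]
        exact h2
    · intro k hk
      have h5 : x m ≠ i := by rw [← h3]; exact h2
      rw [A_apply_of_lt h5 hk]
      exact h4 k hk

/-- tiles -/
def IsTile (ξ : Om) (W : Set Om) : Prop := ∃ n, ∃ η ∈ Cl ξ, W = T n η

theorem isTile_iff {ξ : Om} (hξ : NonSing ξ) (W : Set Om) :
    IsTile ξ W ↔ TT ξ W ∧ ¬ PM W := by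
  constructor
  · rintro ⟨n, η, hη, rfl⟩
    exact ⟨TT_T hξ hη, not_PM_T (hξ.cof hη)⟩
  · rintro ⟨h1, h2⟩
    obtain ⟨n, η, hη, h | h⟩ := h1.tile_or hξ
    · exact ⟨n, η, hη, h⟩
    · exact absurd (h ▸ PM_compl hη) h2

theorem T_subset_iff {n m : ℕ} {η ζ : Om} : T n η ⊆ T m ζ ↔ n ≤ m ∧ η ∈ T m ζ := by
  constructor
  · intro h
    have h1 := h (self_mem_T n η)
    refine ⟨?_, h1⟩
    by_contra hlt
    have h2 := h (corner_mem (-(0 + η m) + 1) n η) m le_rfl
    have h3 := h (corner_mem (-(0 + η m) + 2) n η) m le_rfl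
    unfold corner at h2 h3
    rw [if_pos (by omega)] at h2 h3
    rw [← h3] at h2
    revert h2
    generalize η m = x
    revert x
    decide
  · rintro ⟨h1, h2⟩ χ hχ k hk
    rw [hχ k (by omega), h2 k hk]

theorem T_ssubset_succ (n : ℕ) (η : Om) : T n η ⊂ T (n + 1) η := by
  refine ⟨T_mono (by omega) η, fun h => ?_⟩
  have := (T_subset_iff.1 h).1
  omega

/-- the next tile -/
def Nxt (ξ : Om) (W W' : Set Om) : Prop :=
  IsTile ξ W' ∧ W ⊂ W' ∧ ∀ W'', IsTile ξ W'' → W ⊂ W'' → W'' ⊆ W' → W'' = W'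

theorem nxt_iff {ξ η : Om} (hη : η ∈ Cl ξ) (n : ℕ) (W' : Set Om) :
    Nxt ξ (T n η) W' ↔ W' = T (n + 1) η := by
  constructor
  · rintro ⟨⟨m, ζ, hζ, rfl⟩, h1, h2⟩
    have h3 := T_subset_iff.1 h1.1
    have h4 : n ≠ m := by
      rintro rfl
      exact h1.2 (T_subset_iff.2 ⟨le_rfl, fun k hk => (h3.2 k hk).symm⟩)
    refine (h2 (T (n + 1) η) ⟨_, _, hη, rfl⟩ (T_ssubset_succ n η) ?_).symm
    exact T_subset_iff.2 ⟨by omega, h3.2⟩
  · rintro rfl
    refine ⟨⟨_, _, hη, rfl⟩, T_ssubset_succ n η, ?_⟩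
    rintro _ ⟨m, ζ, hζ, rfl⟩ h1 h2
    have h3 := T_subset_iff.1 h1.1
    have h4 := T_subset_iff.1 h2
    have h5 : n ≠ m := by
      rintro rfl
      exact h1.2 (T_subset_iff.2 ⟨le_rfl, fun k hk => (h3.2 k hk).symm⟩)
    have h6 : m = n + 1 := by omega
    subst h6
    exact (T_eq_of_mem h3.2).symm

theorem digit_iff {ξ η : Om} (hξ : NonSing ξ) (hη : η ∈ Cl ξ) (n : ℕ) (l : Fin 3) :
    (∃ x ∈ T n η, A l x ∉ T (n + 1) η) ↔ η n = l := by
  constructor
  · rintro ⟨x, hx, hx'⟩
    by_contra hne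
    apply hx'
    apply A_mem_T (T_mono (by omega) η hx) (p := n) (by omega)
    rw [hx n le_rfl]
    exact hne
  · intro h
    refine ⟨corner l n η, corner_mem l n η, ?_⟩
    have : corner l n η = corner l (n + 1) η := by
      funext p
      unfold corner
      by_cases h1 : p < n
      · rw [if_pos h1, if_pos (by omega)]
      · rw [if_neg h1]
        by_cases h2 : p = n
        · subst h2; rw [if_pos (by omega), h]
        · rw [if_neg (by omega)]
    rw [this]
    exact A_corner_not_mem (hξ.cof hη)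

/-- reading a word in the chain of tiles above `W` -/
def Chi (ξ : Om) : List (Fin 3) → Set Om → Prop
  | [], _ => True
  | d :: p, W => ∃ W', Nxt ξ W W' ∧ (∃ x ∈ W, A d x ∉ W') ∧ Chi ξ p W'

theorem chi_iff {ξ : Om} (hξ : NonSing ξ) : ∀ (p : List (Fin 3)) {η : Om}, η ∈ Cl ξ →
    ∀ n : ℕ, Chi ξ p (T n η) ↔ ∀ j (hj : j < p.length), η (n + j) = p[j] := by
  intro p
  induction p with
  | nil => intro η _ n; simp [Chi]
  | cons d p ih =>
    intro η hη n
    constructor
    · rintro ⟨W', h1, h2, h3⟩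
      rw [nxt_iff hη] at h1
      subst h1
      rw [digit_iff hξ hη] at h2
      rw [ih hη] at h3
      intro j hj
      cases j with
      | zero => simpa using h2
      | succ j =>
        have := h3 j (by simpa using hj)
        rw [show n + (j + 1) = n + 1 + j by omega, this]
        simp
    · intro h
      refine ⟨T (n + 1) η, (nxt_iff hη n _).2 rfl, ?_, ?_⟩
      · rw [digit_iff hξ hη]
        exact h 0 (by simp)
      · rw [ih hη]
        intro j hj
        have := h (j + 1) (by simpa using hj)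
        rw [show n + 1 + j = n + (j + 1) by omega, this]
        simp

/-- the word `p` occurs infinitely often in `ξ` -/
def InfOcc (ξ : Om) (p : List (Fin 3)) : Prop :=
  ∀ N, ∃ n, N ≤ n ∧ ∀ j (hj : j < p.length), ξ (n + j) = p[j]

/-- the property expressed by the sentences -/
def Psi (ξ : Om) (p : List (Fin 3)) : Prop :=
  ∀ W, IsTile ξ W → ∃ W', IsTile ξ W' ∧ W ⊆ W' ∧ Chi ξ p W'

theorem psi_iff {ξ : Om} (hξ : NonSing ξ) (p : List (Fin 3)) : Psi ξ p ↔ InfOcc ξ p := by
  constructor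
  · intro h N
    obtain ⟨W', ⟨m, η, hη, rfl⟩, h1, h2⟩ := h (T N ξ) ⟨N, ξ, Cof.refl ξ, rfl⟩
    rw [chi_iff hξ p hη] at h2
    have h3 := T_subset_iff.1 h1
    refine ⟨m, h3.1, fun j hj => ?_⟩
    rw [h3.2 (m + j) (by omega), h2 j hj]
  · rintro h W ⟨m, η, hη, rfl⟩
    obtain ⟨M, hM⟩ := hη
    obtain ⟨n, hn, hn'⟩ := h (max M m)
    refine ⟨T n η, ⟨n, η, ⟨M, hM⟩, rfl⟩, T_mono (by omega) η, ?_⟩
    rw [chi_iff hξ p ⟨M, hM⟩]
    intro j hj
    rw [← hM (n + j) (by omega), hn' j hj]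

end Pool.Agent.Work.MP_9fe7bd_lc
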