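import Pool.Agent.Work.MP_9fe7bd_lc.Formulas

namespace Pool.Agent.Work.MP_9fe7bd_lc

open Nat.Partrec

/-- the program number `c` halts within `s` steps on input `0` -/
def halted (c s : ℕ) : Bool := (Code.evaln s (Denumerable.ofNat Code c) 0).isSome

/-- the ray -/
def xi (n : ℕ) : Fin 3 :=
  if halted (Nat.unpair (Nat.sqrt n)).1 (Nat.unpair (Nat.sqrt n)).2 = true then 2
  else if n = Nat.sqrt n * Nat.sqrt n ∨
      n = Nat.sqrt n * Nat.sqrt n + ((Nat.unpair (Nat.sqrt n)).1 + 2) then 1
  else if n < Nat.sqrt n * Nat.sqrt n + ((Nat.unpair (Nat.sqrt n)).1 + 2) then 0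
  else 2

theorem xi_block {t j : ℕ} (hj : j ≤ 2 * t) : xi (t * t + j) =
    if halted (Nat.unpair t).1 (Nat.unpair t).2 = true then 2
    else if j = 0 ∨ j = (Nat.unpair t).1 + 2 then 1
    else if j < (Nat.unpair t).1 + 2 then 0
    else 2 := by
  have hs : Nat.sqrt (t * t + j) = t := by
    rw [Nat.sqrt_add_eq _ (by omega)]
  unfold xi
  rw [hs]
  congr 1
  congr 1
  · apply propext
    constructor
    · rintro (h | h)
      · left; omega
      · right; omega
    · rintro (h | h)
      · left; omega
      · right; omega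
  · congr 1
    apply propext
    constructor <;> intro h <;> omega

/-- the word `1 0^(c+1) 1` -/
def wd (c : ℕ) : List (Fin 3) := 1 :: (List.replicate (c + 1) 0 ++ [1])

theorem wd_length (c : ℕ) : (wd c).length = c + 3 := by
  simp [wd]

theorem wd_get (c j : ℕ) (hj : j < (wd c).length) :
    (wd c)[j] = if j = 0 ∨ j = c + 2 then 1 else 0 := by
  have h : (wd c)[j]? = some (if j = 0 ∨ j = c + 2 then 1 else 0) := by
    rw [wd_length] at hj
    unfold wd
    cases j with
    | zero => simp
    | succ j =>
      rw [List.getElem?_cons_succ]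
      by_cases h : j < c + 1
      · rw [List.getElem?_append_left (by simpa using h), List.getElem?_replicate, if_pos h,
          if_neg (by omega)]
      · have : j = c + 1 := by omega
        subst this
        rw [List.getElem?_append_right (by simp), if_pos (Or.inr rfl)]
        simp
  rw [List.getElem?_eq_getElem hj] at h
  exact Option.some.inj h

theorem occ_never {c : ℕ} (h : ∀ s, halted c s = false) : InfOcc xi (wd c) := by
  intro N
  refine ⟨Nat.pair c (N + 2) * Nat.pair c (N + 2), ?_, ?_⟩
  · have h1 : N + 2 ≤ Nat.pair c (N + 2) := Nat.right_le_pair _ _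
    nlinarith
  · intro j hj
    rw [wd_get c j hj]
    rw [wd_length] at hj
    have h1 : N + 2 ≤ Nat.pair c (N + 2) := Nat.right_le_pair _ _
    have h2 : c ≤ Nat.pair c (N + 2) := Nat.left_le_pair _ _
    rw [xi_block (by omega), Nat.unpair_pair, h, if_neg (by simp)]
    dsimp only
    by_cases h3 : j = 0 ∨ j = c + 2
    · rw [if_pos h3, if_pos h3]
    · rw [if_neg h3, if_neg h3, if_pos (by omega)]

theorem halted_mono {c s s' : ℕ} (h : s ≤ s') (hs : halted c s = true) : halted c s' = true := by
  unfold halted at *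
  rw [Option.isSome_iff_exists] at *
  obtain ⟨x, hx⟩ := hs
  exact ⟨x, Code.evaln_mono h hx⟩

theorem occ_halt {c s : ℕ} (h : halted c s = true) : ¬ InfOcc xi (wd c) := by
  intro hinf
  -- bound on the stages
  obtain ⟨B, hB⟩ : ∃ B, ∀ t, B ≤ t → (Nat.unpair t).1 = c → halted c (Nat.unpair t).2 = true := by
    classical
    refine ⟨(Finset.range s).sup (fun s' => Nat.pair c s') + 1, fun t ht hc => ?_⟩
    apply halted_mono _ h
    by_contra hlt
    have h1 : Nat.pair c (Nat.unpair t).2 ≤ (Finset.range s).sup (fun s' => Nat.pair c s') :=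
      Finset.le_sup (f := fun s' => Nat.pair c s') (Finset.mem_range.2 (by omega))
    rw [← hc, Nat.pair_unpair, hc] at h1
    omega
  obtain ⟨n, hn, hocc⟩ := hinf ((B + 3) * (B + 3))
  have hocc' : ∀ j, j < c + 3 → xi (n + j) = if j = 0 ∨ j = c + 2 then 1 else 0 := by
    intro j hj
    rw [hocc j (by rw [wd_length]; exact hj), wd_get]
  set t := Nat.sqrt n with ht
  have h1 : t * t ≤ n := Nat.sqrt_le n
  have h2 : n < (t + 1) * (t + 1) := Nat.lt_succ_sqrt n
  have h3 : B + 3 ≤ t := Nat.le_sqrt.2 hn
  obtain ⟨j, hj⟩ := Nat.exists_eq_add_of_le h1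
  have hj2 : j ≤ 2 * t := by nlinarith
  have hct : (Nat.unpair t).1 ≤ t := Nat.unpair_left_le t
  -- the block of `t` is not blank
  have h4 : halted (Nat.unpair t).1 (Nat.unpair t).2 = false := by
    by_contra h5
    rw [Bool.not_eq_false] at h5
    have h6 := hocc' 0 (by omega)
    rw [if_pos (Or.inl rfl), add_zero, hj, xi_block hj2, if_pos h5] at h6
    exact absurd h6 (by decide)
  have hblk : ∀ i, i ≤ 2 * t → xi (t * t + i) =
      if i = 0 ∨ i = (Nat.unpair t).1 + 2 then 1
      else if i < (Nat.unpair t).1 + 2 then 0 else 2 := by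
    intro i hi
    rw [xi_block hi, h4, if_neg (by simp)]
  -- the pattern stays in the block
  have hstay : ∀ i, i < c + 3 → j + i ≤ 2 * t := by
    intro i
    induction i with
    | zero => intro _; omega
    | succ i ih =>
      intro hi
      have h5 := ih (by omega)
      rcases Nat.lt_or_ge (j + i) (2 * t) with h6 | h6
      · omega
      · exfalso
        have h7 : j + i = 2 * t := by omega
        have h8 := hocc' i (by omega)
        rw [hj, add_assoc, hblk _ h5, h7, if_neg (by omega), if_neg (by omega)] at h8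
        by_cases h9 : i = 0 ∨ i = c + 2
        · rw [if_pos h9] at h8; exact absurd h8 (by decide)
        · rw [if_neg h9] at h8; exact absurd h8 (by decide)
  have hj0 : j = 0 := by
    have h5 := hocc' 0 (by omega)
    rw [if_pos (Or.inl rfl), add_zero, hj, hblk j hj2] at h5
    by_contra hne
    have h6 : j = (Nat.unpair t).1 + 2 := by
      by_contra h7
      rw [if_neg (by omega)] at h5
      split_ifs at h5 <;> exact absurd h5 (by decide)
    have h7 := hocc' 1 (by omega)
    rw [if_neg (by omega), hj, add_assoc, hblk _ (hstay 1 (by omega)), if_neg (by omega),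
      if_neg (by omega)] at h7
    exact absurd h7 (by decide)
  subst hj0
  have hc : (Nat.unpair t).1 = c := by
    have h5 := hocc' (c + 2) (by omega)
    rw [if_pos (Or.inr rfl), hj, add_assoc, hblk _ (hstay (c + 2) (by omega))] at h5
    by_contra hne
    rw [if_neg (by omega)] at h5
    split_ifs at h5 <;> exact absurd h5 (by decide)
  have := hB t (by omega) hc
  rw [hc] at h4
  rw [this] at h4
  exact absurd h4 (by decide)

theorem dom_iff (c : ℕ) : (Code.eval (Denumerable.ofNat Code c) 0).Dom ↔ ∃ s, halted c s = true := by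
  rw [Part.dom_iff_mem]
  constructor
  · rintro ⟨y, hy⟩
    obtain ⟨s, hs⟩ := Code.evaln_complete.1 hy
    exact ⟨s, Option.isSome_iff_exists.2 ⟨y, hs⟩⟩
  · rintro ⟨s, hs⟩
    obtain ⟨y, hy⟩ := Option.isSome_iff_exists.1 hs
    exact ⟨y, Code.evaln_sound hy⟩

theorem infOcc_iff (c : ℕ) :
    InfOcc xi (wd c) ↔ ¬ (Code.eval (Denumerable.ofNat Code c) 0).Dom := by
  rw [dom_iff]
  constructor
  · rintro h ⟨s, hs⟩
    exact occ_halt hs h
  · intro h
    push Not at h
    exact occ_never fun s => Bool.eq_false_iff.2 (h s)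

theorem exists_nonhalt : ∃ c, ∀ s, halted c s = false := by
  by_contra h
  push Not at h
  apply ComputablePred.halting_problem 0
  have : (fun c : Code => (Code.eval c 0).Dom) = fun _ => True := by
    funext c
    apply propext
    refine iff_of_true ?_ trivial
    have h1 := (dom_iff (Encodable.encode c)).2 (by
      obtain ⟨s, hs⟩ := h (Encodable.encode c)
      exact ⟨s, by simpa using hs⟩)
    rwa [Denumerable.ofNat_encode] at h1
  rw [this]
  exact ⟨fun _ => inferInstance, by simpa using Computable.const true⟩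

theorem xi_nonSing : NonSing xi := by
  obtain ⟨c, hc⟩ := exists_nonhalt
  have h := occ_never hc
  intro i N
  obtain ⟨n, hn, h1⟩ := h N
  by_cases hi : i = 1
  · refine ⟨n + 1, by omega, ?_⟩
    rw [h1 1 (by rw [wd_length]; omega), wd_get, if_neg (by omega), hi]
    decide
  · refine ⟨n, hn, ?_⟩
    have h2 := h1 0 (by rw [wd_length]; omega)
    rw [wd_get, if_pos (Or.inl rfl), add_zero] at h2
    rw [h2]
    exact fun h => hi h.symm

end Pool.Agent.Work.MP_9fe7bd_lc
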