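import Pool.Agent.Work.MP_9fe7bd_lc.Undec

namespace Pool.Agent.Work.MP_9fe7bd_lc

open Nat.Partrec MSO

theorem primrec_halted : Primrec₂ halted := by
  unfold halted
  have h1 : Primrec fun a : ℕ × ℕ => (((a.2, Denumerable.ofNat Code a.1), 0) : (ℕ × Code) × ℕ) :=
    Primrec.pair (Primrec.pair Primrec.snd ((Primrec.ofNat Code).comp Primrec.fst))
      (Primrec.const 0)
  have h2 := Primrec.option_isSome.comp (Code.primrec_evaln.comp h1)
  exact h2

theorem primrec_xi : Primrec xi := by
  unfold xi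
  have hs : Primrec fun n : ℕ => Nat.sqrt n := Primrec.nat_sqrt
  have hss : Primrec fun n : ℕ => Nat.sqrt n * Nat.sqrt n := Primrec.nat_mul.comp hs hs
  have hc : Primrec fun n : ℕ => (Nat.unpair (Nat.sqrt n)).1 :=
    Primrec.fst.comp (Primrec.unpair.comp hs)
  have hd : Primrec fun n : ℕ => (Nat.unpair (Nat.sqrt n)).2 :=
    Primrec.snd.comp (Primrec.unpair.comp hs)
  have he : Primrec fun n : ℕ => Nat.sqrt n * Nat.sqrt n + ((Nat.unpair (Nat.sqrt n)).1 + 2) :=
    Primrec.nat_add.comp hss (Primrec.nat_add.comp hc (Primrec.const 2))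
  have hh : Primrec fun n : ℕ =>
      halted (Nat.unpair (Nat.sqrt n)).1 (Nat.unpair (Nat.sqrt n)).2 :=
    primrec_halted.comp hc hd
  refine Primrec.ite (Primrec.eq.comp hh (Primrec.const true)) (Primrec.const 2) ?_
  refine Primrec.ite (PrimrecPred.or (Primrec.eq.comp Primrec.id hss)
    (Primrec.eq.comp Primrec.id he)) (Primrec.const 1) ?_
  exact Primrec.ite (Primrec.nat_lt.comp Primrec.id he) (Primrec.const 0) (Primrec.const 2)

/-- one step of the coding of the formulas `chiF` -/
def stp (d : Fin 3) (b : ℕ) (y : ℕ) : ℕ :=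
  Nat.pair 6 (Nat.pair (1 - b) (Nat.pair 4 (Nat.pair (nxtF b (1 - b)).code
    (Nat.pair 4 (Nat.pair (digF d b (1 - b)).code y)))))

theorem code_chiF_cons (d : Fin 3) (p : List (Fin 3)) (b : ℕ) :
    (chiF (d :: p) b).code = stp d b (chiF p (1 - b)).code := rfl

theorem primrec_stp (d : Fin 3) (b : ℕ) : Primrec (stp d b) := by
  unfold stp
  exact Primrec₂.natPair.comp (Primrec.const _) (Primrec₂.natPair.comp (Primrec.const _)
    (Primrec₂.natPair.comp (Primrec.const _) (Primrec₂.natPair.comp (Primrec.const _)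
      (Primrec₂.natPair.comp (Primrec.const _) (Primrec₂.natPair.comp (Primrec.const _)
        Primrec.id)))))

/-- the codes for both choices of the variable -/
def stp2 (y : ℕ × ℕ) : ℕ × ℕ := (stp 0 0 y.2, stp 0 1 y.1)

theorem primrec_stp2 : Primrec stp2 :=
  Primrec.pair ((primrec_stp 0 0).comp Primrec.snd) ((primrec_stp 0 1).comp Primrec.fst)

theorem code_chiF_rep (m : ℕ) :
    ((chiF (List.replicate m 0 ++ [1]) 0).code, (chiF (List.replicate m 0 ++ [1]) 1).code) =
      stp2^[m] ((chiF [1] 0).code, (chiF [1] 1).code) := by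
  induction m with
  | zero => rfl
  | succ m ih =>
    rw [Function.iterate_succ_apply', ← ih]
    rfl

/-- the code of the sentence `psiF (wd c)` from the code of `chiF (wd c) 0` -/
def outer (y : ℕ) : ℕ :=
  Nat.pair 3 (Nat.pair 6 (Nat.pair 2 (Nat.pair 3 (Nat.pair 3 (Nat.pair 4
    (Nat.pair (thetaF 2).code (Nat.pair 3 (Nat.pair 6 (Nat.pair 0 (Nat.pair 4
      (Nat.pair (thetaF 0).code (Nat.pair 4 (Nat.pair (subF 2 0).code y)))))))))))))

theorem code_psiF (p : List (Fin 3)) : (psiF p).code = outer (chiF p 0).code := rfl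

theorem primrec_outer : Primrec outer := by
  unfold outer
  have h : ∀ (a : ℕ) {g : ℕ → ℕ}, Primrec g → Primrec fun y => Nat.pair a (g y) :=
    fun a _ hg => Primrec₂.natPair.comp (Primrec.const a) hg
  exact h _ (h _ (h _ (h _ (h _ (h _ (h _ (h _ (h _ (h _ (h _ (h _ (h _ (h _ Primrec.id)))))))))))))

theorem primrec_code_wd : Primrec fun c : ℕ => (psiF (wd c)).code := by
  have h1 : Primrec fun c : ℕ => stp2^[c + 1] ((chiF [1] 0).code, (chiF [1] 1).code) :=
    Primrec.nat_iterate Primrec.succ (Primrec.const _) (primrec_stp2.comp Primrec.snd)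
  have h2 : Primrec fun c : ℕ => outer (stp 1 0
      (stp2^[c + 1] ((chiF [1] 0).code, (chiF [1] 1).code)).2) :=
    primrec_outer.comp ((primrec_stp 1 0).comp (Primrec.snd.comp h1))
  refine h2.of_eq fun c => ?_
  rw [code_psiF, ← code_chiF_rep]
  unfold wd
  rw [code_chiF_cons]

theorem not_MSODecidable : ¬ MSODecidable (Edge hanoi xi) := by
  rintro ⟨f, hf, h⟩
  apply ComputablePred.halting_problem 0
  have h1 : ∀ c : Code, (Code.eval c 0).Dom ↔ f (psiF (wd (Encodable.encode c))).code = false := by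
    intro c
    have h2 := h (psiF (wd (Encodable.encode c))) (psiF_sentence _)
    have h3 : (∀ e g, Sat (Edge hanoi xi) (psiF (wd (Encodable.encode c))) e g) ↔
        InfOcc xi (wd (Encodable.encode c)) := by
      constructor
      · intro h4
        exact (sat_psiF xi_nonSing _).1
          (h4 (fun _ => mkV xi (Cof.refl xi)) (fun _ => (∅ : Set (V xi))))
      · intro h4 e g
        exact (sat_psiF xi_nonSing _).2 h4
    rw [h3, infOcc_iff, Denumerable.ofNat_encode] at h2
    rw [← Bool.not_eq_true, h2, not_not]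
  have h5 : Computable fun c : Code => !(f (psiF (wd (Encodable.encode c))).code) :=
    Primrec.not.to_comp.comp (hf.comp ((primrec_code_wd.comp Primrec.encode).to_comp))
  rw [ComputablePred.computable_iff]
  refine ⟨_, h5, ?_⟩
  funext c
  rw [h1]
  simp

end Pool.Agent.Work.MP_9fe7bd_lc
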